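import Pool.Agent.H543R2.KA.Occ

/-!
# Substitution instances of small valid inequalities: covering of rectangles
-/

namespace Pool.Agent.H543R2.KA

open RegularExpression Language
open scoped Computability

variable {α X : Type}

/-- The image of a language under a substitution. -/
def hat (τ : X → Language α) (K : Language X) : Language α :=
  {w | ∃ W ∈ K, w ∈ (W.map τ).prod}

theorem mem_hat {τ : X → Language α} {K : Language X} {w : List α} :
    w ∈ hat τ K ↔ ∃ W ∈ K, w ∈ (W.map τ).prod := Iff.rfl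

theorem hat_mono (τ : X → Language α) {K K' : Language X} (h : K ≤ K') : hat τ K ≤ hat τ K' := by
  rintro w ⟨W, hW, hw⟩
  exact ⟨W, h hW, hw⟩

theorem hat_zero (τ : X → Language α) : hat τ 0 = 0 := by
  ext w
  constructor
  · rintro ⟨W, hW, _⟩
    exact hW
  · intro h
    exact h.elim

theorem hat_one (τ : X → Language α) : hat τ 1 = 1 := by
  ext w
  constructor
  · rintro ⟨W, hW, hw⟩
    have hW' : W = [] := hW
    subst hW'
    exact hw
  · intro h
    exact ⟨[], rfl, h⟩

theorem hat_add (τ : X → Language α) (K K' : Language X) :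
    hat τ (K + K') = hat τ K + hat τ K' := by
  ext w
  constructor
  · rintro ⟨W, hW, hw⟩
    rcases hW with hW | hW
    · exact Or.inl ⟨W, hW, hw⟩
    · exact Or.inr ⟨W, hW, hw⟩
  · rintro (⟨W, hW, hw⟩ | ⟨W, hW, hw⟩)
    · exact ⟨W, Or.inl hW, hw⟩
    · exact ⟨W, Or.inr hW, hw⟩

theorem hat_mul (τ : X → Language α) (K K' : Language X) :
    hat τ (K * K') = hat τ K * hat τ K' := by
  ext w
  constructor
  · rintro ⟨W, ⟨W1, h1, W2, h2, rfl⟩, hw⟩
    change w ∈ ((W1 ++ W2).map τ).prod at hw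
    rw [List.map_append, List.prod_append] at hw
    obtain ⟨w1, hw1, w2, hw2, rfl⟩ := hw
    exact ⟨w1, ⟨W1, h1, hw1⟩, w2, ⟨W2, h2, hw2⟩, rfl⟩
  · rintro ⟨w1, ⟨W1, h1, hw1⟩, w2, ⟨W2, h2, hw2⟩, rfl⟩
    refine ⟨W1 ++ W2, ⟨W1, h1, W2, h2, rfl⟩, ?_⟩
    rw [List.map_append, List.prod_append]
    exact ⟨w1, hw1, w2, hw2, rfl⟩

theorem hat_star (τ : X → Language α) (K : Language X) : hat τ (K∗) = (hat τ K)∗ := by
  apply le_antisymm
  · rintro w ⟨W, hW, hw⟩
    rw [Language.mem_kstar] at hW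
    obtain ⟨L, rfl, hL⟩ := hW
    induction L generalizing w with
    | nil =>
      have : w = [] := hw
      subst this
      exact Language.nil_mem_kstar _
    | cons x L ih =>
      rw [List.flatten_cons, List.map_append, List.prod_append] at hw
      obtain ⟨w1, hw1, w2, hw2, rfl⟩ := hw
      have h2 := ih (fun y hy => hL y (List.mem_cons_of_mem _ hy)) hw2
      have : hat τ K * (hat τ K)∗ ≤ (hat τ K)∗ := mul_kstar_le_kstar
      exact this ⟨w1, ⟨x, hL x List.mem_cons_self, hw1⟩, w2, h2, rfl⟩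
  · intro w hw
    change w ∈ (hat τ K)∗ at hw
    rw [Language.mem_kstar] at hw
    obtain ⟨L, rfl, hL⟩ := hw
    induction L with
    | nil => exact ⟨[], Language.nil_mem_kstar _, rfl⟩
    | cons x L ih =>
      obtain ⟨W2, hW2, hw2⟩ := ih (fun y hy => hL y (List.mem_cons_of_mem _ hy))
      obtain ⟨W1, hW1, hw1⟩ := hL x List.mem_cons_self
      refine ⟨W1 ++ W2, ?_, ?_⟩
      · have : K * K∗ ≤ K∗ := mul_kstar_le_kstar
        exact this ⟨W1, hW1, W2, hW2, rfl⟩
      · rw [List.map_append, List.prod_append]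
        exact ⟨x, hw1, L.flatten, hw2, by simp⟩

theorem matches_subst (σ : X → RegularExpression α) (p : RegularExpression X) :
    (subst σ p).matches' = hat (fun x => (σ x).matches') p.matches' := by
  induction p with
  | zero => exact (hat_zero _).symm
  | epsilon => exact (hat_one _).symm
  | char x =>
    ext w
    constructor
    · intro h
      change w ∈ (σ x).matches' at h
      refine ⟨[x], rfl, ?_⟩
      simpa using h
    · rintro ⟨W, hW, hw⟩
      have : W = [x] := hW
      subst this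
      show w ∈ (σ x).matches'
      simpa using hw
  | plus p q ihp ihq =>
    show (subst σ p).matches' + (subst σ q).matches' = hat _ (p.matches' + q.matches')
    rw [hat_add, ihp, ihq]
  | comp p q ihp ihq =>
    show (subst σ p).matches' * (subst σ q).matches' = hat _ (p.matches' * q.matches')
    rw [hat_mul, ihp, ihq]
  | star p ih =>
    show ((subst σ p).matches')∗ = hat _ (p.matches'∗)
    rw [hat_star, ih]

theorem mem_occs_subst (σ : X → RegularExpression α) (p : RegularExpression X) (o : Oc α) :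
    o ∈ occs (subst σ p) ↔ ∃ o1 ∈ occs p, ∃ o2 ∈ occs (σ o1.1),
      o = (o2.1, hat (fun x => (σ x).matches') o1.2.1 * o2.2.1,
        o2.2.2 * hat (fun x => (σ x).matches') o1.2.2) := by
  set τ : X → Language α := fun x => (σ x).matches' with hτ
  induction p generalizing o with
  | zero => simp [occs, subst]
  | epsilon => simp [occs, subst]
  | char x =>
    show o ∈ occs (σ x) ↔ _
    simp only [occs, List.mem_singleton, exists_eq_left, hat_one, one_mul, mul_one]
    constructor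
    · intro h
      exact ⟨o, h, rfl⟩
    · rintro ⟨o2, h, rfl⟩
      exact h
  | plus p q ihp ihq =>
    show o ∈ occs (subst σ p) ++ occs (subst σ q) ↔ ∃ o1 ∈ occs p ++ occs q, _
    rw [List.mem_append]
    constructor
    · rintro (h | h)
      · obtain ⟨o1, h1, h2⟩ := (ihp o).mp h
        exact ⟨o1, List.mem_append_left _ h1, h2⟩
      · obtain ⟨o1, h1, h2⟩ := (ihq o).mp h
        exact ⟨o1, List.mem_append_right _ h1, h2⟩
    · rintro ⟨o1, h1, h2⟩
      rcases List.mem_append.mp h1 with h1 | h1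
      · exact Or.inl ((ihp o).mpr ⟨o1, h1, h2⟩)
      · exact Or.inr ((ihq o).mpr ⟨o1, h1, h2⟩)
  | comp p q ihp ihq =>
    show o ∈ occs (subst σ p * subst σ q) ↔ ∃ o1 ∈ occs (p * q), _
    rw [occs_mul, occs_mul, List.mem_append, List.mem_map, List.mem_map]
    constructor
    · rintro (⟨o', h', rfl⟩ | ⟨o', h', rfl⟩)
      · obtain ⟨o1, h1, o2, h2, rfl⟩ := (ihp o').mp h'
        refine ⟨_, List.mem_append_left _ (List.mem_map.mpr ⟨o1, h1, rfl⟩), o2, h2, ?_⟩
        simp only [Prod.mk.injEq, true_and]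
        rw [matches_subst, hat_mul, mul_assoc]
      · obtain ⟨o1, h1, o2, h2, rfl⟩ := (ihq o').mp h'
        refine ⟨_, List.mem_append_right _ (List.mem_map.mpr ⟨o1, h1, rfl⟩), o2, h2, ?_⟩
        simp only [Prod.mk.injEq, true_and, and_true]
        rw [matches_subst, hat_mul, mul_assoc]
    · rintro ⟨o1, h1, o2, h2, rfl⟩
      rcases List.mem_append.mp h1 with h1 | h1
      · obtain ⟨o1', h1', rfl⟩ := List.mem_map.mp h1
        left
        refine ⟨_, (ihp _).mpr ⟨o1', h1', o2, h2, rfl⟩, ?_⟩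
        simp only [Prod.mk.injEq, true_and]
        rw [matches_subst, hat_mul, mul_assoc]
      · obtain ⟨o1', h1', rfl⟩ := List.mem_map.mp h1
        right
        refine ⟨_, (ihq _).mpr ⟨o1', h1', o2, h2, rfl⟩, ?_⟩
        simp only [Prod.mk.injEq, true_and, and_true]
        rw [matches_subst, hat_mul, mul_assoc]
  | star p ih =>
    show o ∈ occs (RegularExpression.star (subst σ p)) ↔
      ∃ o1 ∈ occs (RegularExpression.star p), _
    rw [occs_star, occs_star, List.mem_map]
    constructor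
    · rintro ⟨o', h', rfl⟩
      obtain ⟨o1, h1, o2, h2, rfl⟩ := (ih o').mp h'
      refine ⟨_, List.mem_map.mpr ⟨o1, h1, rfl⟩, o2, h2, ?_⟩
      simp only [Prod.mk.injEq, true_and]
      rw [matches_subst, hat_mul, hat_mul, hat_star, mul_assoc, mul_assoc]
      exact ⟨rfl, rfl⟩
    · rintro ⟨o1, h1, o2, h2, rfl⟩
      obtain ⟨o1', h1', rfl⟩ := List.mem_map.mp h1
      refine ⟨_, (ih _).mpr ⟨o1', h1', o2, h2, rfl⟩, ?_⟩
      simp only [Prod.mk.injEq, true_and]
      rw [matches_subst, hat_mul, hat_mul, hat_star, mul_assoc, mul_assoc]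
      exact ⟨rfl, rfl⟩

/-- Every rectangle of `s` is covered by at most `c` rectangles of `t` (with the same letter). -/
def Cov (c : ℕ) (s t : RegularExpression α) : Prop :=
  ∀ o ∈ occs s, ∃ V : List (Oc α), V.length ≤ c ∧ (∀ o' ∈ V, o' ∈ occs t) ∧
    ∀ u ∈ o.2.1, ∀ v ∈ o.2.2, ∃ o' ∈ V, o'.1 = o.1 ∧ u ∈ o'.2.1 ∧ v ∈ o'.2.2

theorem inst_sound {c : ℕ} {s t : RegularExpression α} (h : Inst c s t) :
    s.matches' ≤ t.matches' := by
  induction h with
  | root p q hpq hq σ =>
    rw [matches_subst, matches_subst]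
    exact hat_mono _ hpq
  | addL r h ih =>
    rw [matches_add, matches_add]
    exact add_le_add ih le_rfl
  | addR r h ih =>
    rw [matches_add, matches_add]
    exact add_le_add le_rfl ih
  | mulL r h ih =>
    rw [matches_mul, matches_mul]
    exact mul_le_mul' ih le_rfl
  | mulR r h ih =>
    rw [matches_mul, matches_mul]
    exact mul_le_mul' le_rfl ih
  | star h ih =>
    rw [matches_star, matches_star]
    exact kstar_mono ih

theorem inst_cov {c : ℕ} (hc : 1 ≤ c) {s t : RegularExpression α} (h : Inst c s t) :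
    Cov c s t := by
  classical
  induction h with
  | root p q hpq hq σ =>
    intro o ho
    obtain ⟨o1, ho1, o2, ho2, rfl⟩ := (mem_occs_subst σ p o).mp ho
    set τ : ℕ → Language α := fun x => (σ x).matches' with hτ
    refine ⟨((occs q).filter (fun z => z.1 = o1.1)).map
      (fun z => (o2.1, hat τ z.2.1 * o2.2.1, o2.2.2 * hat τ z.2.2)), ?_, ?_, ?_⟩
    · rw [List.length_map]
      exact (List.length_filter_le _ _).trans (by rw [occs_length]; exact hq)
    · intro o' ho'
      obtain ⟨z, hz, rfl⟩ := List.mem_map.mp ho'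
      rw [List.mem_filter] at hz
      have hz2 : z.1 = o1.1 := by simpa using hz.2
      rw [mem_occs_subst]
      refine ⟨z, hz.1, o2, ?_, rfl⟩
      rw [hz2]; exact ho2
    · rintro u ⟨u1, ⟨W1, hW1, hu1⟩, u2, hu2, rfl⟩ v ⟨v1, hv1, v2, ⟨W2, hW2, hv2⟩, rfl⟩
      have h1 : W1 ++ o1.1 :: W2 ∈ q.matches' := hpq (occs_sound p o1 ho1 W1 hW1 W2 hW2)
      obtain ⟨z, hz, hz1, hz2, hz3⟩ := occs_complete q _ _ _ h1
      refine ⟨_, List.mem_map.mpr ⟨z, ?_, rfl⟩, rfl, ?_, ?_⟩
      · rw [List.mem_filter]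
        exact ⟨hz, by simpa using hz1⟩
      · exact ⟨u1, ⟨W1, hz2, hu1⟩, u2, hu2, rfl⟩
      · exact ⟨v1, hv1, v2, ⟨W2, hz3, hv2⟩, rfl⟩
  | addL r h ih =>
    intro o ho
    rw [occs_add] at ho
    rcases List.mem_append.mp ho with ho | ho
    · obtain ⟨V, h1, h2, h3⟩ := ih o ho
      exact ⟨V, h1, fun o' ho' => List.mem_append_left _ (h2 o' ho'), h3⟩
    · refine ⟨[o], by simpa using hc, ?_, ?_⟩
      · intro o' ho'
        rw [List.mem_singleton] at ho'
        subst ho'
        exact List.mem_append_right _ ho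
      · intro u hu v hv
        exact ⟨o, List.mem_singleton_self _, rfl, hu, hv⟩
  | addR r h ih =>
    intro o ho
    rw [occs_add] at ho
    rcases List.mem_append.mp ho with ho | ho
    · refine ⟨[o], by simpa using hc, ?_, ?_⟩
      · intro o' ho'
        rw [List.mem_singleton] at ho'
        subst ho'
        exact List.mem_append_left _ ho
      · intro u hu v hv
        exact ⟨o, List.mem_singleton_self _, rfl, hu, hv⟩
    · obtain ⟨V, h1, h2, h3⟩ := ih o ho
      exact ⟨V, h1, fun o' ho' => List.mem_append_right _ (h2 o' ho'), h3⟩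
  | @mulL s t r h ih =>
    intro o ho
    have hst := inst_sound h
    rw [occs_mul] at ho
    rcases List.mem_append.mp ho with ho | ho
    · obtain ⟨o1, ho1, rfl⟩ := List.mem_map.mp ho
      obtain ⟨V, h1, h2, h3⟩ := ih o1 ho1
      refine ⟨V.map (fun o => (o.1, o.2.1, o.2.2 * r.matches')), by simpa using h1, ?_, ?_⟩
      · intro o' ho'
        obtain ⟨z, hz, rfl⟩ := List.mem_map.mp ho'
        exact List.mem_append_left _ (List.mem_map.mpr ⟨z, h2 z hz, rfl⟩)
      · rintro u hu v ⟨v1, hv1, v2, hv2, rfl⟩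
        obtain ⟨z, hz, hz1, hz2, hz3⟩ := h3 u hu v1 hv1
        exact ⟨_, List.mem_map.mpr ⟨z, hz, rfl⟩, hz1, hz2, ⟨v1, hz3, v2, hv2, rfl⟩⟩
    · obtain ⟨o1, ho1, rfl⟩ := List.mem_map.mp ho
      refine ⟨[(o1.1, t.matches' * o1.2.1, o1.2.2)], by simpa using hc, ?_, ?_⟩
      · intro o' ho'
        rw [List.mem_singleton] at ho'
        subst ho'
        exact List.mem_append_right _ (List.mem_map.mpr ⟨o1, ho1, rfl⟩)
      · rintro u ⟨u1, hu1, u2, hu2, rfl⟩ v hv
        exact ⟨_, List.mem_singleton_self _, rfl, ⟨u1, hst hu1, u2, hu2, rfl⟩, hv⟩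
  | @mulR s t r h ih =>
    intro o ho
    have hst := inst_sound h
    rw [occs_mul] at ho
    rcases List.mem_append.mp ho with ho | ho
    · obtain ⟨o1, ho1, rfl⟩ := List.mem_map.mp ho
      refine ⟨[(o1.1, o1.2.1, o1.2.2 * t.matches')], by simpa using hc, ?_, ?_⟩
      · intro o' ho'
        rw [List.mem_singleton] at ho'
        subst ho'
        exact List.mem_append_left _ (List.mem_map.mpr ⟨o1, ho1, rfl⟩)
      · rintro u hu v ⟨v1, hv1, v2, hv2, rfl⟩
        exact ⟨_, List.mem_singleton_self _, rfl, hu, ⟨v1, hv1, v2, hst hv2, rfl⟩⟩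
    · obtain ⟨o1, ho1, rfl⟩ := List.mem_map.mp ho
      obtain ⟨V, h1, h2, h3⟩ := ih o1 ho1
      refine ⟨V.map (fun o => (o.1, r.matches' * o.2.1, o.2.2)), by simpa using h1, ?_, ?_⟩
      · intro o' ho'
        obtain ⟨z, hz, rfl⟩ := List.mem_map.mp ho'
        exact List.mem_append_right _ (List.mem_map.mpr ⟨z, h2 z hz, rfl⟩)
      · rintro u ⟨u1, hu1, u2, hu2, rfl⟩ v hv
        obtain ⟨z, hz, hz1, hz2, hz3⟩ := h3 u2 hu2 v hv
        exact ⟨_, List.mem_map.mpr ⟨z, hz, rfl⟩, hz1, ⟨u1, hu1, u2, hz2, rfl⟩, hz3⟩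
  | @star s t h ih =>
    intro o ho
    have hst : s.matches'∗ ≤ t.matches'∗ := kstar_mono (inst_sound h)
    rw [occs_star] at ho
    obtain ⟨o1, ho1, rfl⟩ := List.mem_map.mp ho
    obtain ⟨V, h1, h2, h3⟩ := ih o1 ho1
    refine ⟨V.map (fun o => (o.1, t.matches'∗ * o.2.1, o.2.2 * t.matches'∗)), by simpa using h1,
      ?_, ?_⟩
    · intro o' ho'
      obtain ⟨z, hz, rfl⟩ := List.mem_map.mp ho'
      exact List.mem_map.mpr ⟨z, h2 z hz, rfl⟩
    · rintro u ⟨u1, hu1, u2, hu2, rfl⟩ v ⟨v1, hv1, v2, hv2, rfl⟩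
      obtain ⟨z, hz, hz1, hz2, hz3⟩ := h3 u2 hu2 v1 hv1
      exact ⟨_, List.mem_map.mpr ⟨z, hz, rfl⟩, hz1, ⟨u1, hst hu1, u2, hz2, rfl⟩,
        ⟨v1, hz3, v2, hst hv2, rfl⟩⟩

end Pool.Agent.H543R2.KA
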