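import Mathlib

/-!
# Proofs of inequalities between regular expressions (Kleene algebra): definitions
-/

namespace Pool.Agent.H543R2.KA

open RegularExpression

/-- The number of letter occurrences in a regular expression. -/
def width {α : Type} : RegularExpression α → ℕ
  | zero => 0
  | epsilon => 0
  | char _ => 1
  | plus p q => width p + width q
  | comp p q => width p + width q
  | RegularExpression.star p => width p

/-- The total number of symbols in a regular expression. -/
def len {α : Type} : RegularExpression α → ℕ
  | zero => 1
  | epsilon => 1
  | char _ => 1
  | plus p q => len p + len q + 1
  | comp p q => len p + len q + 1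
  | RegularExpression.star p => len p + 1

/-- Substitution of regular expressions for letters. -/
def subst {X α : Type} (σ : X → RegularExpression α) : RegularExpression X → RegularExpression α
  | zero => zero
  | epsilon => epsilon
  | char x => σ x
  | plus p q => plus (subst σ p) (subst σ q)
  | comp p q => comp (subst σ p) (subst σ q)
  | RegularExpression.star p => RegularExpression.star (subst σ p)

/-- `Inst c s t`: the pair `(s, t)` arises from a valid inequality `p ≤ q` between regular
expressions over countably many variables (that is, `L(p) ⊆ L(q)`) whose right-hand side has at
most `c` variable occurrences, by substituting arbitrary regular expressions for the variables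
and applying the resulting inequality at one place inside an arbitrary context. -/
inductive Inst {α : Type} (c : ℕ) : RegularExpression α → RegularExpression α → Prop
  | root (p q : RegularExpression ℕ) (hpq : p.matches' ≤ q.matches') (hq : width q ≤ c)
      (σ : ℕ → RegularExpression α) : Inst c (subst σ p) (subst σ q)
  | addL {s t : RegularExpression α} (r : RegularExpression α) (h : Inst c s t) :
      Inst c (s + r) (t + r)
  | addR {s t : RegularExpression α} (r : RegularExpression α) (h : Inst c s t) :
      Inst c (r + s) (r + t)
  | mulL {s t : RegularExpression α} (r : RegularExpression α) (h : Inst c s t) :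
      Inst c (s * r) (t * r)
  | mulR {s t : RegularExpression α} (r : RegularExpression α) (h : Inst c s t) :
      Inst c (r * s) (r * t)
  | star {s t : RegularExpression α} (h : Inst c s t) :
      Inst c (RegularExpression.star s) (RegularExpression.star t)

/-- A line of a proof: `(s, t, r)` is the inequality `s ≤ t` with the label `r`.  The label names
the right context in which the line is used. -/
abbrev Line (α : Type) : Type := RegularExpression α × RegularExpression α × RegularExpression α

/-- `Just c Γ s t r`: the inequality `s ≤ t` with label `r` follows by one step from the set `Γ`
of earlier lines.  All rules are the usual rules of Kleene algebra; the labels only record what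
stands to the right of an inequality when it is multiplied from the right. -/
inductive Just {α : Type} (c : ℕ) (Γ : Set (Line α)) :
    RegularExpression α → RegularExpression α → RegularExpression α → Prop
  /-- axioms: substitution instances, in any context, of the valid inequalities of width at most
  `c` -/
  | ax {s t r : RegularExpression α} (h : Inst c s t) : Just c Γ s t r
  /-- transitivity -/
  | trans {s m t r : RegularExpression α} (h1 : (s, m, r) ∈ Γ) (h2 : (m, t, r) ∈ Γ) :
      Just c Γ s t r
  /-- monotonicity of addition -/
  | add {s t s' t' r : RegularExpression α} (h1 : (s, t, r) ∈ Γ) (h2 : (s', t', r) ∈ Γ) :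
      Just c Γ (s + s') (t + t') r
  /-- monotonicity of multiplication: `s ≤ t` and `s' ≤ t'` give `s s' ≤ t t'` -/
  | mul {s t s' t' r : RegularExpression α} (h1 : (s, t, t' * r) ∈ Γ) (h2 : (s', t', r) ∈ Γ) :
      Just c Γ (s * s') (t * t') r
  /-- monotonicity of the star: `s ≤ t` gives `s* ≤ t*` -/
  | star {s t r : RegularExpression α} (h : (s, t, RegularExpression.star t * r) ∈ Γ) :
      Just c Γ (RegularExpression.star s) (RegularExpression.star t) r
  /-- the left induction rule of Kleene algebra: `a x + b ≤ x` gives `a* b ≤ x` -/
  | ind {a b x r : RegularExpression α} (h : (a * x + b, x, r) ∈ Γ) :
      Just c Γ (RegularExpression.star a * b) x r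
  /-- the rule of Salomaa and Arden: `x ≤ a x + b` gives `x ≤ a* b` when the empty word is not in
  `L(a)` -/
  | sal {a b x r : RegularExpression α} (ha : [] ∉ a.matches') (h : (x, a * x + b, r) ∈ Γ) :
      Just c Γ x (RegularExpression.star a * b) r

/-- A proof: a list of lines (the last one first), each of which follows by one step from the
lines that come later in the list.  A line may be used arbitrarily often, but always with its
label.  (In a tree-like proof, where every line is used at most once, the labels can be filled in
from the root and are no restriction.) -/
def IsProof {α : Type} (c : ℕ) : List (Line α) → Prop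
  | [] => True
  | l :: π => Just c {m | m ∈ π} l.1 l.2.1 l.2.2 ∧ IsProof c π

/-- The size of a proof: the total number of letter occurrences in its inequalities (the labels
are not counted). -/
def size {α : Type} (π : List (Line α)) : ℕ :=
  (π.map (fun l => width l.1 + width l.2.1)).sum

/-- `HasProof c s t N`: the inequality `s ≤ t` (with the trivial label `1`) has a proof of size at
most `N`. -/
def HasProof {α : Type} (c : ℕ) (s t : RegularExpression α) (N : ℕ) : Prop :=
  ∃ π : List (Line α), IsProof c π ∧ (s, t, 1) ∈ π ∧ size π ≤ N

/-- Tree-like proofs in the same system without labels: `Tree c s t n` says that `s ≤ t` has a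
tree-like proof in which the total number of letter occurrences is `n`. -/
inductive Tree {α : Type} (c : ℕ) : RegularExpression α → RegularExpression α → ℕ → Prop
  | ax {s t : RegularExpression α} (h : Inst c s t) : Tree c s t (width s + width t)
  | trans {s m t : RegularExpression α} {n n' : ℕ} (h1 : Tree c s m n) (h2 : Tree c m t n') :
      Tree c s t (width s + width t + n + n')
  | add {s t s' t' : RegularExpression α} {n n' : ℕ} (h1 : Tree c s t n) (h2 : Tree c s' t' n') :
      Tree c (s + s') (t + t') (width (s + s') + width (t + t') + n + n')
  | mul {s t s' t' : RegularExpression α} {n n' : ℕ} (h1 : Tree c s t n) (h2 : Tree c s' t' n') :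
      Tree c (s * s') (t * t') (width (s * s') + width (t * t') + n + n')
  | star {s t : RegularExpression α} {n : ℕ} (h : Tree c s t n) :
      Tree c (RegularExpression.star s) (RegularExpression.star t) (width s + width t + n)
  | ind {a b x : RegularExpression α} {n : ℕ} (h : Tree c (a * x + b) x n) :
      Tree c (RegularExpression.star a * b) x
        (width (RegularExpression.star a * b) + width x + n)
  | sal {a b x : RegularExpression α} {n : ℕ} (ha : [] ∉ a.matches')
      (h : Tree c x (a * x + b) n) :
      Tree c x (RegularExpression.star a * b)
        (width x + width (RegularExpression.star a * b) + n)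

end Pool.Agent.H543R2.KA
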