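import Pool.Agent.H543R2.KA.Defs

/-!
# Tree-like proofs are proofs of the same size
-/

namespace Pool.Agent.H543R2.KA

open RegularExpression

variable {α : Type}

theorem Just.mono {c : ℕ} {Γ Γ' : Set (Line α)}
    (h : Γ ⊆ Γ') {s t r : RegularExpression α} (hj : Just c Γ s t r) : Just c Γ' s t r := by
  cases hj with
  | ax h1 => exact Just.ax h1
  | trans h1 h2 => exact Just.trans (h h1) (h h2)
  | add h1 h2 => exact Just.add (h h1) (h h2)
  | mul h1 h2 => exact Just.mul (h h1) (h h2)
  | star h1 => exact Just.star (h h1)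
  | ind h1 => exact Just.ind (h h1)
  | sal ha h1 => exact Just.sal ha (h h1)

theorem isProof_append {c : ℕ} {π π' : List (Line α)}
    (h : IsProof c π) (h' : IsProof c π') : IsProof c (π ++ π') := by
  induction π with
  | nil => exact h'
  | cons l π ih =>
    obtain ⟨h1, h2⟩ := h
    refine ⟨h1.mono ?_, ih h2⟩
    intro m hm
    exact List.mem_append_left _ hm

theorem size_append (π π' : List (Line α)) : size (π ++ π') = size π + size π' := by
  simp [size]

/-- there is a proof of the line `(s, t, r)` of size `m` -/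
def Has (c : ℕ) (s t r : RegularExpression α) (m : ℕ) : Prop :=
  ∃ π, IsProof c π ∧ (s, t, r) ∈ π ∧ size π = m

theorem Has.step1 {c : ℕ} {s t r s' t' r' : RegularExpression α} {m : ℕ} (h : Has c s t r m)
    (hj : ∀ Γ : Set (Line α), (s, t, r) ∈ Γ → Just c Γ s' t' r') :
    Has c s' t' r' (width s' + width t' + m) := by
  obtain ⟨π, h1, h2, h3⟩ := h
  refine ⟨(s', t', r') :: π, ⟨hj _ h2, h1⟩, List.mem_cons_self, ?_⟩
  simp only [size, List.map_cons, List.sum_cons] at h3 ⊢
  omega

theorem Has.step2 {c : ℕ} {s t r s1 t1 r1 s' t' r' : RegularExpression α} {m n : ℕ}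
    (h : Has c s t r m) (h' : Has c s1 t1 r1 n)
    (hj : ∀ Γ : Set (Line α), (s, t, r) ∈ Γ → (s1, t1, r1) ∈ Γ → Just c Γ s' t' r') :
    Has c s' t' r' (width s' + width t' + m + n) := by
  obtain ⟨π, h1, h2, h3⟩ := h
  obtain ⟨π', h1', h2', h3'⟩ := h'
  refine ⟨(s', t', r') :: (π ++ π'), ⟨hj _ (List.mem_append_left _ h2)
    (List.mem_append_right _ h2'), isProof_append h1 h1'⟩, List.mem_cons_self, ?_⟩
  have := size_append π π'
  simp only [size, List.map_cons, List.sum_cons] at this h3 h3' ⊢
  omega

/-- Every tree-like proof can be labelled: it gives a proof of the same size, with any label at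
the root. -/
theorem tree_embed {c : ℕ} {s t : RegularExpression α} {n : ℕ} (h : Tree c s t n) :
    ∀ r : RegularExpression α, Has c s t r n := by
  induction h with
  | @ax s t h =>
    intro r
    exact ⟨[(s, t, r)], ⟨Just.ax h, trivial⟩, List.mem_singleton_self _, by simp [size]⟩
  | trans h1 h2 ih1 ih2 =>
    intro r
    exact (ih1 r).step2 (ih2 r) (fun _ h1 h2 => Just.trans h1 h2)
  | add h1 h2 ih1 ih2 =>
    intro r
    exact (ih1 r).step2 (ih2 r) (fun _ h1 h2 => Just.add h1 h2)
  | mul h1 h2 ih1 ih2 =>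
    intro r
    exact (ih1 _).step2 (ih2 r) (fun _ h1 h2 => Just.mul h1 h2)
  | star h ih =>
    intro r
    exact (ih _).step1 (fun _ h1 => Just.star h1)
  | ind h ih =>
    intro r
    exact (ih r).step1 (fun _ h1 => Just.ind h1)
  | sal ha h ih =>
    intro r
    exact (ih r).step1 (fun _ h1 => Just.sal ha h1)

end Pool.Agent.H543R2.KA
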