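import Pool.Agent.H543R2.KA.Hard2
import Pool.Agent.H543R2.KA.Embed

/-!
# The inequalities `Σ* ≤ rho l` have proofs
-/

namespace Pool.Agent.H543R2.KA

open RegularExpression Language
open scoped Computability

variable {α : Type}

/-- provability -/
def Tp (s t : RegularExpression α) : Prop := ∃ n, Tree 4 s t n

theorem Tp.ax {s t : RegularExpression α} (h : Inst 4 s t) : Tp s t := ⟨_, Tree.ax h⟩

theorem Tp.trans {s r t : RegularExpression α} (h1 : Tp s r) (h2 : Tp r t) : Tp s t := by
  obtain ⟨n, h1⟩ := h1
  obtain ⟨m, h2⟩ := h2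
  exact ⟨_, h1.trans h2⟩

theorem Tp.add {s t s' t' : RegularExpression α} (h1 : Tp s t) (h2 : Tp s' t') :
    Tp (s + s') (t + t') := by
  obtain ⟨n, h1⟩ := h1
  obtain ⟨m, h2⟩ := h2
  exact ⟨_, h1.add h2⟩

theorem Tp.mul {s t s' t' : RegularExpression α} (h1 : Tp s t) (h2 : Tp s' t') :
    Tp (s * s') (t * t') := by
  obtain ⟨n, h1⟩ := h1
  obtain ⟨m, h2⟩ := h2
  exact ⟨_, h1.mul h2⟩

theorem Tp.star {s t : RegularExpression α} (h1 : Tp s t) :
    Tp (RegularExpression.star s) (RegularExpression.star t) := by
  obtain ⟨n, h1⟩ := h1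
  exact ⟨_, h1.star⟩

/-- a substitution from a list -/
def sg (l : List (RegularExpression α)) : ℕ → RegularExpression α := fun n => l.getD n 0

theorem Tp.refl (s : RegularExpression α) : Tp s s :=
  Tp.ax (Inst.root (char 0) (char 0) le_rfl (by show 1 ≤ 4; omega) (sg [s]))

theorem Tp.zero_le (s : RegularExpression α) : Tp 0 s :=
  Tp.ax (Inst.root 0 (char 0) bot_le (by show 1 ≤ 4; omega) (sg [s]))

theorem Tp.le_addL (s t : RegularExpression α) : Tp s (s + t) :=
  Tp.ax (Inst.root (char 0) (char 0 + char 1) (by rw [matches_add]; exact le_sup_left)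
    (by show 1 + 1 ≤ 4; omega) (sg [s, t]))

theorem Tp.le_addR (s t : RegularExpression α) : Tp t (s + t) :=
  Tp.ax (Inst.root (char 1) (char 0 + char 1) (by rw [matches_add]; exact le_sup_right)
    (by show 1 + 1 ≤ 4; omega) (sg [s, t]))

theorem Tp.idem (s : RegularExpression α) : Tp (s + s) s :=
  Tp.ax (Inst.root (char 0 + char 0) (char 0) (by rw [matches_add]; exact (add_idem _).le)
    (by show 1 ≤ 4; omega) (sg [s]))

theorem Tp.add_le {s t r : RegularExpression α} (h1 : Tp s r) (h2 : Tp t r) : Tp (s + t) r :=
  (h1.add h2).trans (Tp.idem r)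

theorem Tp.one_le_star (s : RegularExpression α) : Tp 1 (RegularExpression.star s) :=
  Tp.ax (Inst.root 1 (RegularExpression.star (char 0)) one_le_kstar
    (by show 1 ≤ 4; omega) (sg [s]))

theorem Tp.le_star (s : RegularExpression α) : Tp s (RegularExpression.star s) :=
  Tp.ax (Inst.root (char 0) (RegularExpression.star (char 0)) le_kstar
    (by show 1 ≤ 4; omega) (sg [s]))

theorem Tp.mul_star (s : RegularExpression α) :
    Tp (s * RegularExpression.star s) (RegularExpression.star s) :=
  Tp.ax (Inst.root (char 0 * RegularExpression.star (char 0)) (RegularExpression.star (char 0))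
    (by rw [matches_mul, matches_star]; exact mul_kstar_le_kstar)
    (by show 1 ≤ 4; omega) (sg [s]))

theorem Tp.mul_star' (s t : RegularExpression α) :
    Tp (s * (RegularExpression.star s * t)) (RegularExpression.star s * t) :=
  Tp.ax (Inst.root (char 0 * (RegularExpression.star (char 0) * char 1))
    (RegularExpression.star (char 0) * char 1)
    (by
      simp only [matches_mul, matches_star]
      rw [← mul_assoc]
      exact mul_le_mul' mul_kstar_le_kstar le_rfl)
    (by show 1 + 1 ≤ 4; omega) (sg [s, t]))

theorem Tp.star_mul_star (s : RegularExpression α) :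
    Tp (RegularExpression.star s * RegularExpression.star s) (RegularExpression.star s) :=
  Tp.ax (Inst.root (RegularExpression.star (char 0) * RegularExpression.star (char 0))
    (RegularExpression.star (char 0))
    (by rw [matches_mul, matches_star, kstar_mul_kstar])
    (by show 1 ≤ 4; omega) (sg [s]))

theorem Tp.star_star (s : RegularExpression α) :
    Tp (RegularExpression.star (RegularExpression.star s)) (RegularExpression.star s) :=
  Tp.ax (Inst.root (RegularExpression.star (RegularExpression.star (char 0)))
    (RegularExpression.star (char 0))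
    (by rw [matches_star, matches_star, kstar_idem])
    (by show 1 ≤ 4; omega) (sg [s]))

theorem Tp.unfold (s : RegularExpression α) :
    Tp (RegularExpression.star s) (1 + s * RegularExpression.star s) :=
  Tp.ax (Inst.root (RegularExpression.star (char 0))
    (1 + char 0 * RegularExpression.star (char 0))
    (by
      rw [matches_add, matches_mul, matches_star, matches'_epsilon, Language.one_add_self_mul_kstar_eq_kstar])
    (by show 0 + (1 + 1) ≤ 4; omega) (sg [s]))

theorem Tp.distL (s t r : RegularExpression α) : Tp (s * (t + r)) (s * t + s * r) :=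
  Tp.ax (Inst.root (char 0 * (char 1 + char 2)) (char 0 * char 1 + char 0 * char 2)
    (by simp only [matches_add, matches_mul, mul_add]; exact le_rfl)
    (by show 1 + 1 + (1 + 1) ≤ 4; omega) (sg [s, t, r]))

theorem Tp.distR (s t r : RegularExpression α) : Tp ((s + t) * r) (s * r + t * r) :=
  Tp.ax (Inst.root ((char 0 + char 1) * char 2) (char 0 * char 2 + char 1 * char 2)
    (by simp only [matches_add, matches_mul, add_mul]; exact le_rfl)
    (by show 1 + 1 + (1 + 1) ≤ 4; omega) (sg [s, t, r]))

theorem Tp.assoc' (s t r : RegularExpression α) : Tp (s * (t * r)) (s * t * r) :=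
  Tp.ax (Inst.root (char 0 * (char 1 * char 2)) (char 0 * char 1 * char 2)
    (by simp only [matches_mul, mul_assoc]; exact le_rfl)
    (by show 1 + 1 + 1 ≤ 4; omega) (sg [s, t, r]))

theorem Tp.assoc (s t r : RegularExpression α) : Tp (s * t * r) (s * (t * r)) :=
  Tp.ax (Inst.root (char 0 * char 1 * char 2) (char 0 * (char 1 * char 2))
    (by simp only [matches_mul, mul_assoc]; exact le_rfl)
    (by show 1 + (1 + 1) ≤ 4; omega) (sg [s, t, r]))

theorem Tp.one_mul' (s : RegularExpression α) : Tp s (1 * s) :=
  Tp.ax (Inst.root (char 0) (1 * char 0)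
    (by rw [matches_mul, matches'_epsilon, one_mul])
    (by show 0 + 1 ≤ 4; omega) (sg [s]))

theorem Tp.mul_zero_mul (u x : RegularExpression α) : Tp (u * (0 * x)) 0 :=
  Tp.ax (Inst.root (char 0 * (0 * char 1)) 0
    (by rw [matches_mul, matches_mul, matches'_zero, zero_mul, mul_zero])
    (by show 0 ≤ 4; omega) (sg [u, x]))

theorem Tp.sumL_le {l : List α} {e : RegularExpression α} (h : ∀ a ∈ l, Tp (char a) e) :
    Tp (sumL l) e := by
  induction l with
  | nil => exact Tp.zero_le e
  | cons a l ih =>
    exact (h a List.mem_cons_self).add_le (ih (fun b hb => h b (List.mem_cons_of_mem _ hb)))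

theorem Tp.le_sumL {l : List α} {a : α} (h : a ∈ l) : Tp (char a) (sumL l) := by
  induction l with
  | nil => simp at h
  | cons b l ih =>
    rcases List.mem_cons.mp h with rfl | h
    · exact Tp.le_addL _ _
    · exact (ih h).trans (Tp.le_addR _ _)

theorem Tp.le_sumE {l : List (RegularExpression α)} {e : RegularExpression α} (h : e ∈ l) :
    Tp e (sumE l) := by
  induction l with
  | nil => simp at h
  | cons b l ih =>
    rcases List.mem_cons.mp h with rfl | h
    · exact Tp.le_addL _ _
    · exact (ih h).trans (Tp.le_addR _ _)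

theorem Tp.le_all {ab : List α} (hab : ∀ a, a ∈ ab) (e : RegularExpression α) :
    Tp e (RegularExpression.star (sumL ab)) := by
  induction e with
  | zero => exact Tp.zero_le _
  | epsilon => exact Tp.one_le_star _
  | char a => exact (Tp.le_sumL (hab a)).trans (Tp.le_star _)
  | plus p q ihp ihq => exact ihp.add_le ihq
  | comp p q ihp ihq => exact (ihp.mul ihq).trans (Tp.star_mul_star _)
  | star p ih => exact ih.star.trans (Tp.star_star _)

/-- the expression for a shape -/
def pat : List (List α) → RegularExpression α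
  | [] => 1
  | S :: Ss => sumL S * pat Ss

/-- the expression for a word -/
def wd : List α → RegularExpression α
  | [] => 1
  | a :: w => char a * wd w

theorem Tp.cover [DecidableEq α] {ab : List α} (hab : ∀ a, a ∈ ab) (Ss : List (List α)) :
    Tp (RegularExpression.star (sumL ab)) (compl ab Ss + pat Ss) := by
  induction Ss with
  | nil =>
    refine (Tp.unfold _).trans ?_
    exact (Tp.le_addR _ _).add_le (Tp.le_addL _ _)
  | cons S Ss ih =>
    refine (Tp.unfold _).trans ?_
    refine ((Tp.le_addL _ _).trans (Tp.le_addL _ _)).add_le ?_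
    have hsplit : Tp (sumL ab) (sumL S + sumL (ab.filter (fun a => a ∉ S))) := by
      apply Tp.sumL_le
      intro a ha
      by_cases haS : a ∈ S
      · exact (Tp.le_sumL haS).trans (Tp.le_addL _ _)
      · refine (Tp.le_sumL ?_).trans (Tp.le_addR _ _)
        rw [List.mem_filter]
        exact ⟨ha, by simpa using haS⟩
    refine ((hsplit.mul (Tp.refl _)).trans (Tp.distR _ _ _)).trans ?_
    apply Tp.add_le
    · refine (((Tp.refl _).mul ih).trans (Tp.distL _ _ _)).trans ?_
      apply Tp.add_le
      · have h1 : Tp (sumL S) (sumL ab) := Tp.sumL_le (fun a _ => Tp.le_sumL (hab a))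
        refine (h1.mul (Tp.refl _)).trans ?_
        exact ((Tp.le_addR _ _).trans (Tp.le_addR _ _)).trans (Tp.le_addL _ _)
      · exact Tp.le_addR _ _
    · exact ((Tp.le_addL _ _).trans (Tp.le_addR _ _)).trans (Tp.le_addL _ _)

theorem Tp.pat_le (Ss : List (List α)) (e : RegularExpression α) :
    ∀ u : RegularExpression α,
      (∀ w, List.Forall₂ (fun a S => a ∈ S) w Ss → Tp (u * wd w) e) → Tp (u * pat Ss) e := by
  induction Ss with
  | nil =>
    intro u h
    exact h [] List.Forall₂.nil
  | cons S Ss ih =>
    intro u h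
    have key : ∀ S' : List α, (∀ a ∈ S', a ∈ S) → Tp (u * (sumL S' * pat Ss)) e := by
      intro S'
      induction S' with
      | nil =>
        intro _
        exact (Tp.mul_zero_mul _ _).trans (Tp.zero_le _)
      | cons a S' ihS =>
        intro hS
        refine (((Tp.refl u).mul (Tp.distR _ _ _)).trans (Tp.distL _ _ _)).trans ?_
        apply Tp.add_le
        · refine (Tp.assoc' _ _ _).trans (ih (u * char a) ?_)
          intro w hw
          refine (Tp.assoc _ _ _).trans (h (a :: w) ?_)
          exact List.Forall₂.cons (hS a List.mem_cons_self) hw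
        · exact ihS (fun b hb => hS b (List.mem_cons_of_mem _ hb))
    exact key S (fun a ha => ha)

theorem Tp.wd_le_sub {ab : List α} (hab : ∀ a, a ∈ ab) {l w : List α} (h : List.Sublist l w) :
    Tp (wd w) (sub ab l) := by
  induction h with
  | slnil => exact Tp.one_le_star _
  | @cons l w a h ih =>
    refine ((Tp.le_sumL (hab a)).mul ih).trans ?_
    cases l with
    | nil => exact Tp.mul_star _
    | cons b l => exact Tp.mul_star' _ _
  | @cons_cons l w a h ih =>
    exact ((Tp.refl _).mul ih).trans ((Tp.one_mul' _).trans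
      ((Tp.one_le_star _).mul (Tp.refl _)))

theorem exists_term {k q κ : ℕ} (hκ : κ < k) {w : List (Ltr k q κ)}
    (h : List.Forall₂ (fun a S => a ∈ S) w (shape k q κ)) :
    ∃ e ∈ terms k q κ, w ∈ e.matches' := by
  rcases universal hκ w with h1 | h1
  · exfalso
    have h2 : w ∈ (compl (ltrs k q κ) (shape k q κ)).matches' := h1
    rw [mem_compl mem_ltrs] at h2
    exact h2 h
  · exact (mem_sumE _ _).mp h1

theorem tp_rho {k q κ : ℕ} (hκ : κ < k) :
    Tp (RegularExpression.star (sumL (ltrs k q κ))) (rhoG k q κ) := by
  refine (Tp.cover mem_ltrs (shape k q κ)).trans ?_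
  apply Tp.add_le
  · exact Tp.le_addL _ _
  · refine (Tp.one_mul' _).trans ?_
    apply Tp.pat_le
    intro w hw
    obtain ⟨e, he, hwe⟩ := exists_term hκ hw
    have h1 : Tp (wd w) e := by
      obtain ⟨x, y, c, _, rfl | rfl⟩ := of_mem_terms he
      · exact Tp.wd_le_sub mem_ltrs ((mem_sub mem_ltrs _ _).mp hwe)
      · exact Tp.wd_le_sub mem_ltrs ((mem_sub mem_ltrs _ _).mp hwe)
    have h2 : Tp (1 * wd w) (wd w) :=
      Tp.ax (Inst.root (1 * char 0) (char 0)
        (by rw [matches_mul, matches'_epsilon, one_mul])
        (by show 1 ≤ 4; omega) (sg [wd w]))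
    exact (h2.trans h1).trans ((Tp.le_sumE he).trans (Tp.le_addR _ _))

end Pool.Agent.H543R2.KA
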