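import Pool.Agent.H520R2.Prog

/-!
# Horn closure by monotone straight-line programs
-/

namespace Pool.Agent.H543R2.KA

open Pool.Agent.H520R2

section iterate

variable {ι : Type}

theorem iter_mono (f : Finset ι → Finset ι) (hf : Monotone f) (n : ℕ) :
    f^[n] ∅ ⊆ f^[n + 1] ∅ := by
  induction n with
  | zero => simp
  | succ n ih =>
    rw [Function.iterate_succ_apply', Function.iterate_succ_apply']
    exact hf ih

theorem iter_stable (f : Finset ι → Finset ι) (hf : Monotone f) (A : Finset ι)
    (hA : ∀ D, f D ⊆ A) : f^[A.card + 1] ∅ = f^[A.card] ∅ := by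
  by_contra hne
  have hstab : ∀ n m : ℕ, f^[n + 1] ∅ = f^[n] ∅ → f^[n + m + 1] ∅ = f^[n + m] ∅ := by
    intro n m h
    induction m with
    | zero => exact h
    | succ m ih =>
      rw [show n + (m + 1) = (n + m) + 1 by ring, Function.iterate_succ_apply', ih,
        ← Function.iterate_succ_apply' f (n + m), ih]
  have key : ∀ n ≤ A.card + 1, n ≤ (f^[n] ∅).card := by
    intro n
    induction n with
    | zero => intro _; exact Nat.zero_le _
    | succ n ih =>
      intro hn
      have h1 := ih (by omega)
      have h2 : f^[n] ∅ ≠ f^[n + 1] ∅ := by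
        intro h
        apply hne
        have := hstab n (A.card - n) h.symm
        rwa [show n + (A.card - n) = A.card by omega] at this
      have h3 : (f^[n] ∅).card < (f^[n + 1] ∅).card :=
        Finset.card_lt_card (lt_of_le_of_ne (iter_mono f hf n) h2)
      omega
  have h4 := key (A.card + 1) le_rfl
  have h5 : (f^[A.card + 1] ∅).card ≤ A.card := by
    rw [Function.iterate_succ_apply']
    exact Finset.card_le_card (hA _)
  omega

end iterate

section prog

variable {X : Type*} {B : Set (X → Bool)}

theorem all_prog (htrue : (fun _ => true) ∈ B) (gs : List (X → Bool)) {L : List (X → Bool)}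
    (hL : MProg B L) (hg : ∀ g ∈ gs, Av B L g) :
    ∃ L', L'.length ≤ gs.length ∧ MProg B (L' ++ L) ∧
      Av B (L' ++ L) (fun x => gs.all (fun g => g x)) := by
  induction gs with
  | nil => exact ⟨[], le_rfl, by simpa using hL, Or.inl (by simpa using htrue)⟩
  | cons g gs ih =>
    obtain ⟨L', h1, h2, h3⟩ := ih (fun f hf => hg f (List.mem_cons_of_mem _ hf))
    refine ⟨(fun x => g x && gs.all (fun g => g x)) :: L', by simpa using h1,
      MProg.and h2 ((hg g List.mem_cons_self).mono L') h3, Or.inr ?_⟩
    rw [List.cons_append]
    have : (fun x => (g :: gs).all (fun g => g x)) = fun x => g x && gs.all (fun g => g x) := by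
      funext x
      simp
    rw [this]
    exact List.mem_cons_self

theorem any_prog (hfalse : (fun _ => false) ∈ B) (gs : List (X → Bool)) {L : List (X → Bool)}
    (hL : MProg B L) (hg : ∀ g ∈ gs, Av B L g) :
    ∃ L', L'.length ≤ gs.length ∧ MProg B (L' ++ L) ∧
      Av B (L' ++ L) (fun x => gs.any (fun g => g x)) := by
  induction gs with
  | nil => exact ⟨[], le_rfl, by simpa using hL, Or.inl (by simpa using hfalse)⟩
  | cons g gs ih =>
    obtain ⟨L', h1, h2, h3⟩ := ih (fun f hf => hg f (List.mem_cons_of_mem _ hf))
    refine ⟨(fun x => g x || gs.any (fun g => g x)) :: L', by simpa using h1,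
      MProg.or h2 ((hg g List.mem_cons_self).mono L') h3, Or.inr ?_⟩
    rw [List.cons_append]
    have : (fun x => (g :: gs).any (fun g => g x)) = fun x => g x || gs.any (fun g => g x) := by
      funext x
      simp
    rw [this]
    exact List.mem_cons_self

theorem batch (n : ℕ) (fs : List (X → Bool)) {L : List (X → Bool)} (hL : MProg B L)
    (H : ∀ f ∈ fs, ∀ L1, MProg B (L1 ++ L) → ∃ L2, L2.length ≤ n ∧
      MProg B (L2 ++ (L1 ++ L)) ∧ Av B (L2 ++ (L1 ++ L)) f) :
    ∃ L', L'.length ≤ fs.length * n ∧ MProg B (L' ++ L) ∧ ∀ f ∈ fs, Av B (L' ++ L) f := by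
  induction fs with
  | nil => exact ⟨[], by simp, by simpa using hL, by simp⟩
  | cons f fs ih =>
    obtain ⟨L', h1, h2, h3⟩ := ih (fun g hg => H g (List.mem_cons_of_mem _ hg))
    obtain ⟨L2, h4, h5, h6⟩ := H f List.mem_cons_self L' h2
    refine ⟨L2 ++ L', ?_, by simpa using h5, ?_⟩
    · rw [List.length_append, List.length_cons, add_mul, one_mul]
      omega
    · intro g hg
      rw [List.append_assoc]
      rcases List.mem_cons.mp hg with rfl | hg
      · exact h6
      · exact (h3 g hg).mono L2

open Classical in
/-- one round of the closure of a set of atoms -/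
noncomputable def rnd {ι : Type} (A : Finset ι) (bd : Finset (Finset ι))
    (snd : ι → Finset ι → Prop) (lf : ι → X → Bool) (x : X) (D : Finset ι) : Finset ι :=
  A.filter (fun h => lf h x = true ∨ ∃ T ∈ bd, snd h T ∧ T ⊆ D)

theorem rnd_mono {ι : Type} (A : Finset ι) (bd : Finset (Finset ι))
    (snd : ι → Finset ι → Prop) (lf : ι → X → Bool) (x : X) : Monotone (rnd A bd snd lf x) := by
  classical
  intro D D' hD h hh
  unfold rnd at hh ⊢
  rw [Finset.mem_filter] at hh ⊢
  refine ⟨hh.1, ?_⟩
  rcases hh.2 with h1 | ⟨T, hT, h1, h2⟩
  · exact Or.inl h1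
  · exact Or.inr ⟨T, hT, h1, h2.trans hD⟩

theorem rnd_sub {ι : Type} (A : Finset ι) (bd : Finset (Finset ι))
    (snd : ι → Finset ι → Prop) (lf : ι → X → Bool) (x : X) (D : Finset ι) :
    rnd A bd snd lf x D ⊆ A := by
  classical
  intro h hh
  unfold rnd at hh
  rw [Finset.mem_filter] at hh
  exact hh.1

/-- the closure -/
noncomputable def clo {ι : Type} (A : Finset ι) (bd : Finset (Finset ι))
    (snd : ι → Finset ι → Prop) (lf : ι → X → Bool) (x : X) : Finset ι :=
  (rnd A bd snd lf x)^[A.card] ∅

theorem clo_closed {ι : Type} (A : Finset ι) (bd : Finset (Finset ι))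
    (snd : ι → Finset ι → Prop) (lf : ι → X → Bool) (x : X) {h : ι} (hA : h ∈ A)
    (hh : lf h x = true ∨ ∃ T ∈ bd, snd h T ∧ T ⊆ clo A bd snd lf x) :
    h ∈ clo A bd snd lf x := by
  classical
  have h1 := iter_stable (rnd A bd snd lf x) (rnd_mono A bd snd lf x) A
    (rnd_sub A bd snd lf x)
  have h2 : clo A bd snd lf x = rnd A bd snd lf x (clo A bd snd lf x) := by
    unfold clo
    rw [← Function.iterate_succ_apply' (rnd A bd snd lf x) A.card]
    exact h1.symm
  rw [h2]
  unfold rnd
  rw [Finset.mem_filter]
  exact ⟨hA, hh⟩

/-- any property of atoms preserved by the clauses holds on the closure -/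
theorem clo_ind {ι : Type} (A : Finset ι) (bd : Finset (Finset ι))
    (snd : ι → Finset ι → Prop) (lf : ι → X → Bool) (x : X) (p : ι → Prop)
    (h0 : ∀ h, lf h x = true → p h)
    (h1 : ∀ h T, snd h T → (∀ h' ∈ T, p h') → p h) :
    ∀ h ∈ clo A bd snd lf x, p h := by
  classical
  have key : ∀ n : ℕ, ∀ h ∈ (rnd A bd snd lf x)^[n] ∅, p h := by
    intro n
    induction n with
    | zero => intro h hh; simp at hh
    | succ n ih =>
      intro h hh
      rw [Function.iterate_succ_apply'] at hh
      unfold rnd at hh
      rw [Finset.mem_filter] at hh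
      rcases hh.2 with h2 | ⟨T, _, h2, h3⟩
      · exact h0 h h2
      · exact h1 h T h2 (fun h' hh' => ih h' (h3 hh'))
  exact key _

open Classical in
/-- the closure is computed by a small monotone program -/
theorem clo_prog {ι : Type} (A : Finset ι) (bd : Finset (Finset ι))
    (snd : ι → Finset ι → Prop) (lf : ι → X → Bool) (c : ℕ)
    (hbd : ∀ T ∈ bd, T ⊆ A ∧ T.card ≤ c) (hlf : ∀ h, lf h ∈ B)
    (htrue : (fun _ => true) ∈ B) (hfalse : (fun _ => false) ∈ B) :
    ∃ L, MProg B L ∧ L.length ≤ A.card * (bd.card * c + A.card * (bd.card + 1)) ∧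
      ∀ h ∈ A, Av B L (fun x => decide (h ∈ clo A bd snd lf x)) := by
  classical
  have key : ∀ n : ℕ, ∃ L, MProg B L ∧
      L.length ≤ n * (bd.card * c + A.card * (bd.card + 1)) ∧
      ∀ h ∈ A, Av B L (fun x => decide (h ∈ (rnd A bd snd lf x)^[n] ∅)) := by
    intro n
    induction n with
    | zero =>
      refine ⟨[], MProg.nil, by simp, ?_⟩
      intro h _
      left
      simpa using hfalse
    | succ n ih =>
      obtain ⟨L, hL, hlen, hav⟩ := ih
      -- bodies
      obtain ⟨L1, h11, h12, h13⟩ := batch c
        (bd.toList.map (fun T => fun x => decide (T ⊆ (rnd A bd snd lf x)^[n] ∅))) hL (by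
          intro f hf L1 hL1
          rw [List.mem_map] at hf
          obtain ⟨T, hT, rfl⟩ := hf
          rw [Finset.mem_toList] at hT
          obtain ⟨L2, h1, h2, h3⟩ := all_prog htrue
            (T.toList.map (fun h => fun x => decide (h ∈ (rnd A bd snd lf x)^[n] ∅))) hL1 (by
              intro g hg
              rw [List.mem_map] at hg
              obtain ⟨h, hh, rfl⟩ := hg
              rw [Finset.mem_toList] at hh
              exact (hav h ((hbd T hT).1 hh)).mono L1)
          refine ⟨L2, ?_, h2, ?_⟩
          · refine h1.trans ?_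
            rw [List.length_map, Finset.length_toList]
            exact (hbd T hT).2
          · convert h3 using 2 with x
            rw [List.all_map, Bool.eq_iff_iff, decide_eq_true_iff, List.all_eq_true]
            constructor
            · intro h y hy
              rw [Finset.mem_toList] at hy
              simpa using h hy
            · intro h y hy
              simpa using h y (Finset.mem_toList.mpr hy))
      -- atoms
      obtain ⟨L2, h21, h22, h23⟩ := batch (bd.card + 1)
        (A.toList.map (fun h => fun x => decide (h ∈ (rnd A bd snd lf x)^[n + 1] ∅))) h12 (by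
          intro f hf L2 hL2
          rw [List.mem_map] at hf
          obtain ⟨h, hh, rfl⟩ := hf
          rw [Finset.mem_toList] at hh
          obtain ⟨L3, h1, h2, h3⟩ := any_prog hfalse
            (((bd.filter (fun T => snd h T)).toList.map
              (fun T => fun x => decide (T ⊆ (rnd A bd snd lf x)^[n] ∅)))) hL2 (by
              intro g hg
              rw [List.mem_map] at hg
              obtain ⟨T, hT, rfl⟩ := hg
              rw [Finset.mem_toList, Finset.mem_filter] at hT
              exact (h13 _ (List.mem_map.mpr ⟨T, Finset.mem_toList.mpr hT.1, rfl⟩)).mono L2)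
          have h4 := MProg.or h2 (show lf h ∈ B ∨ lf h ∈ L3 ++ (L2 ++ (L1 ++ L)) from
            Or.inl (hlf h)) h3
          refine ⟨_ :: L3, ?_, h4, ?_⟩
          · rw [List.length_cons]
            apply Nat.add_le_add_right
            refine h1.trans ?_
            rw [List.length_map, Finset.length_toList]
            exact Finset.card_filter_le _ _
          · right
            rw [List.cons_append]
            have : (fun x => decide (h ∈ (rnd A bd snd lf x)^[n + 1] ∅)) = (fun x => lf h x ||
                ((bd.filter (fun T => snd h T)).toList.map (fun T => fun x =>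
                  decide (T ⊆ (rnd A bd snd lf x)^[n] ∅))).any (fun g => g x)) := by
              funext x
              rw [Bool.eq_iff_iff, decide_eq_true_iff, Bool.or_eq_true, List.any_map,
                List.any_eq_true, Function.iterate_succ_apply']
              unfold rnd
              rw [Finset.mem_filter]
              constructor
              · rintro ⟨_, h1 | ⟨T, hT, hs, hsub⟩⟩
                · exact Or.inl h1
                · exact Or.inr ⟨T, Finset.mem_toList.mpr (Finset.mem_filter.mpr ⟨hT, hs⟩),
                    by simpa using hsub⟩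
              · rintro (h1 | ⟨T, hT, hsub⟩)
                · exact ⟨hh, Or.inl h1⟩
                · rw [Finset.mem_toList, Finset.mem_filter] at hT
                  exact ⟨hh, Or.inr ⟨T, hT.1, hT.2, by simpa using hsub⟩⟩
            rw [this]
            exact List.mem_cons_self)
      refine ⟨L2 ++ (L1 ++ L), h22, ?_, ?_⟩
      · rw [List.length_append, List.length_append]
        rw [List.length_map, Finset.length_toList] at h11 h21
        rw [add_mul, one_mul]
        omega
      · intro h hh
        exact h23 _ (List.mem_map.mpr ⟨h, Finset.mem_toList.mpr hh, rfl⟩)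
  exact key _

end prog

end Pool.Agent.H543R2.KA
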