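import Pool.Agent.H543R2.KA.Main
import Pool.Agent.H543R2.KA.Horn

/-!
# Monotone interpolation for proofs of inequalities between regular expressions
-/

namespace Pool.Agent.H543R2.KA

open RegularExpression Language
open scoped Computability
open Pool.Agent.H520R2

variable {α : Type}

theorem interpolation {X I J : Type} {B : Set (X → Bool)} (htrue : (fun _ => true) ∈ B)
    (hfalse : (fun _ => false) ∈ B) {c : ℕ} (hc : 1 ≤ c)
    {π : List (Line α)} (hπ : IsProof c π)
    {s t : RegularExpression α} (hst : (s, t, 1) ∈ π)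
    (wa : I → List α) (xa : I → X) (ltr : J → α) (wb : J → List α) (xb : J → X)
    (hleaf : ∀ o ∈ occs t, ∃ f ∈ B, (∀ i, wa i ∈ o.2.1 → f (xa i) = true) ∧
      ∀ j, o.1 = ltr j → wb j ∈ o.2.2 → f (xb j) = false)
    (hra : ∀ i, ∀ o ∈ occs s, wa i ∈ o.2.1)
    (hrb : ∀ j, ∃ o ∈ occs s, o.1 = ltr j ∧ wb j ∈ o.2.2) :
    ∃ f, MComp B (size π ^ 3 * 4 ^ (c + 1)) f ∧ (∀ i, f (xa i) = true) ∧
      ∀ j, f (xb j) = false := by
  classical
  choose! lf hlfB hlfa hlfb using hleaf
  -- the leaf functions
  set lf' : Atom α → X → Bool := fun h =>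
    if h.1 = t ∧ h.2.1 ∈ occs t ∧ h.2.2 = 1 then lf h.2.1 else fun _ => false with hlf'
  have hlf'B : ∀ h, lf' h ∈ B := by
    intro h
    simp only [hlf']
    split_ifs with hh
    · exact hlfB _ hh.2.1
    · exact hfalse
  set A := atoms π with hA
  set bd := bodies c π with hbd
  obtain ⟨L, hL, hlen, hav⟩ := clo_prog (B := B) A bd Snd lf' c
    (fun T hT => ⟨bodies_sub hT, bodies_card_le hc hT⟩) hlf'B htrue hfalse
  obtain ⟨L', h1, h2, h3⟩ := all_prog htrue
    ((occs s).map (fun o => fun x => decide ((s, o, (1 : RegularExpression α)) ∈ clo A bd Snd lf' x))) hL (by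
      intro g hg
      rw [List.mem_map] at hg
      obtain ⟨o, ho, rfl⟩ := hg
      have e2 : ∀ f g : X → Bool, (∀ x, f x = g x) → Av B L f → Av B L g := by
        intro f g h
        rw [funext h]
        exact id
      exact e2 _ _ (fun x => decide_eq_decide.mpr Iff.rfl) (hav _ (atoms_left hst ho)))
  set F : X → Bool := fun x => ((occs s).map
    (fun o => fun x => decide ((s, o, (1 : RegularExpression α)) ∈ clo A bd Snd lf' x))).all (fun g => g x) with hF
  have hFx : ∀ x, F x = true ↔ ∀ o ∈ occs s, (s, o, (1 : RegularExpression α)) ∈ clo A bd Snd lf' x := by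
    intro x
    simp only [hF]
    rw [List.all_map, List.all_eq_true]
    constructor
    · intro h o ho
      simpa using h o ho
    · intro h o ho
      simpa using h o ho
  refine ⟨F, ⟨L' ++ L, h2, ?_, h3⟩, ?_, ?_⟩
  · have hS : A.card ≤ size π := atoms_card π
    have hbc : bd.card ≤ size π * (2 ^ c + 1) := bodies_card c π
    have hw : width s ≤ size π := by
      unfold size
      have : width s ≤ (fun l : Line α =>
          width l.1 + width l.2.1) (s, t, 1) := Nat.le_add_right _ _
      refine this.trans ?_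
      exact List.single_le_sum (by simp) _ (List.mem_map.mpr ⟨(s, t, 1), hst, rfl⟩)
    rw [List.length_map, occs_length] at h1
    rw [List.length_append]
    set S := size π with hSdef
    have h4 : L.length ≤ S * (S * (2 ^ c + 1) * c + S * (S * (2 ^ c + 1) + 1)) := by
      refine hlen.trans ?_
      gcongr
    have h5 : c + 1 ≤ 2 ^ c := Nat.lt_two_pow_self
    have h6 : (4 : ℕ) ^ (c + 1) = 4 * (2 ^ c * 2 ^ c) := by
      rw [pow_succ, show (4 : ℕ) = 2 * 2 by norm_num, mul_pow]
      ring
    rcases Nat.eq_zero_or_pos S with hS0 | hS0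
    · have : width s = 0 := by omega
      have hl0 : L.length = 0 := by
        rw [hS0] at h4
        simpa using h4
      omega
    · rw [h6]
      set Z := 2 ^ c with hZ
      have hZ2 : 2 ≤ Z := by
        rw [hZ]
        calc 2 = 2 ^ 1 := by norm_num
          _ ≤ 2 ^ c := Nat.pow_le_pow_right (by norm_num) hc
      have h7 : S * (S * (Z + 1) * c + S * (S * (Z + 1) + 1)) + S ≤ S ^ 3 * (4 * (Z * Z)) := by
        have hS2 : S ^ 2 ≤ S ^ 3 := Nat.pow_le_pow_right hS0 (by norm_num)
        have hS1 : S ≤ S ^ 3 := by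
          calc S = S ^ 1 := (pow_one S).symm
            _ ≤ S ^ 3 := Nat.pow_le_pow_right hS0 (by norm_num)
        calc S * (S * (Z + 1) * c + S * (S * (Z + 1) + 1)) + S
            = S ^ 2 * ((Z + 1) * c + 1) + S ^ 3 * (Z + 1) + S := by ring
          _ ≤ S ^ 3 * ((Z + 1) * c + 1) + S ^ 3 * (Z + 1) + S ^ 3 := by gcongr
          _ = S ^ 3 * ((Z + 1) * (c + 1) + 2) := by ring
          _ ≤ S ^ 3 * ((Z + 1) * Z + 2) := by gcongr
          _ ≤ S ^ 3 * (4 * (Z * Z)) := by
              gcongr
              nlinarith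
      omega
  · intro i
    rw [hFx]
    intro o ho
    have hcl : Closed c π {h | h ∈ clo A bd Snd lf' (xa i)} := by
      intro h hh T hT hs hsub
      exact clo_closed A bd Snd lf' (xa i) hh (Or.inr ⟨T, hT, hs, hsub⟩)
    have := lines_ok hc hcl (wa i) hπ (fun l hl => hl) (s, t, 1) hst 1 (by
      intro z hz hwz
      rw [one_mul] at hwz
      refine clo_closed A bd Snd lf' (xa i) (atoms_right hst hz) (Or.inl ?_)
      have h8 : lf' (t, z, 1) = lf z := if_pos ⟨rfl, hz, rfl⟩
      rw [h8]
      exact hlfa z hz i hwz) o ho (by rw [one_mul]; exact hra i o ho)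
    exact this
  · intro j
    rw [Bool.eq_false_iff]
    intro hFj
    rw [hFx] at hFj
    obtain ⟨o, ho, h4, h5⟩ := hrb j
    have key := clo_ind A bd Snd lf' (xb j)
      (fun h => ¬ (h.2.1.1 = ltr j ∧ wb j ∈ Atom.post h)) (by
      intro h hh hlive
      simp only [hlf'] at hh
      split_ifs at hh with hc1
      · have h9 : wb j ∈ h.2.1.2.2 := by
          have h10 := hlive.2
          unfold Atom.post at h10
          rw [hc1.2.2, matches'_epsilon, mul_one] at h10
          exact h10
        have := hlfb h.2.1 hc1.2.1 j hlive.1 h9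
        rw [this] at hh
        exact Bool.noConfusion hh) (by
      intro h T hs hT hlive
      obtain ⟨h', hh', h6, h7⟩ := hs _ hlive.2
      exact hT h' hh' ⟨h6.trans hlive.1, h7⟩)
    refine key _ (hFj o ho) ⟨h4, ?_⟩
    show wb j ∈ o.2.2 * (1 : RegularExpression α).matches'
    rw [matches'_epsilon, mul_one]
    exact h5

end Pool.Agent.H543R2.KA
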