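import Pool.Agent.H543R2.KA.HardDefs
import Pool.Agent.H543R2.KA.Inter

/-!
# The universal regular expressions `rho l`: semantics
-/

namespace Pool.Agent.H543R2.KA

open RegularExpression Language
open scoped Computability

variable {α : Type}

theorem mem_sumL (l : List α) (w : List α) :
    w ∈ (sumL l).matches' ↔ ∃ a ∈ l, w = [a] := by
  induction l with
  | nil =>
    constructor
    · intro h; exact h.elim
    · rintro ⟨a, ha, _⟩; simp at ha
  | cons a l ih =>
    constructor
    · intro h
      rcases h with h | h
      · exact ⟨a, List.mem_cons_self, h⟩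
      · obtain ⟨b, hb, hw⟩ := ih.mp h
        exact ⟨b, List.mem_cons_of_mem _ hb, hw⟩
    · rintro ⟨b, hb, rfl⟩
      rcases List.mem_cons.mp hb with rfl | hb
      · exact Or.inl rfl
      · exact Or.inr (ih.mpr ⟨b, hb, rfl⟩)

theorem mem_sumE (l : List (RegularExpression α)) (w : List α) :
    w ∈ (sumE l).matches' ↔ ∃ e ∈ l, w ∈ e.matches' := by
  induction l with
  | nil =>
    constructor
    · intro h; exact h.elim
    · rintro ⟨a, ha, _⟩; simp at ha
  | cons a l ih =>
    constructor
    · intro h
      rcases h with h | h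
      · exact ⟨a, List.mem_cons_self, h⟩
      · obtain ⟨b, hb, hw⟩ := ih.mp h
        exact ⟨b, List.mem_cons_of_mem _ hb, hw⟩
    · rintro ⟨b, hb, hw⟩
      rcases List.mem_cons.mp hb with rfl | hb
      · exact Or.inl hw
      · exact Or.inr (ih.mpr ⟨b, hb, hw⟩)

theorem mem_occs_sumE (l : List (RegularExpression α)) (o : Oc α) :
    o ∈ occs (sumE l) ↔ ∃ e ∈ l, o ∈ occs e := by
  induction l with
  | nil =>
    constructor
    · intro h
      have h0 : occs (sumE ([] : List (RegularExpression α))) = [] := rfl
      rw [h0] at h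
      simp at h
    · rintro ⟨a, ha, _⟩; simp at ha
  | cons a l ih =>
    constructor
    · intro h
      rcases List.mem_append.mp h with h | h
      · exact ⟨a, List.mem_cons_self, h⟩
      · obtain ⟨b, hb, hw⟩ := ih.mp h
        exact ⟨b, List.mem_cons_of_mem _ hb, hw⟩
    · rintro ⟨b, hb, hw⟩
      rcases List.mem_cons.mp hb with rfl | hb
      · exact List.mem_append_left _ hw
      · exact List.mem_append_right _ (ih.mpr ⟨b, hb, hw⟩)

theorem mem_star_all {ab : List α} (hab : ∀ a, a ∈ ab) (w : List α) :
    w ∈ (sumL ab).matches'∗ := by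
  induction w with
  | nil => exact Language.nil_mem_kstar _
  | cons a w ih =>
    have : (sumL ab).matches' * (sumL ab).matches'∗ ≤ (sumL ab).matches'∗ := mul_kstar_le_kstar
    exact this ⟨[a], (mem_sumL ab [a]).mpr ⟨a, hab a, rfl⟩, w, ih, rfl⟩

theorem mem_sub {ab : List α} (hab : ∀ a, a ∈ ab) (l : List α) (w : List α) :
    w ∈ (sub ab l).matches' ↔ List.Sublist l w := by
  induction l generalizing w with
  | nil =>
    constructor
    · intro _; exact List.nil_sublist w
    · intro _; exact mem_star_all hab w
  | cons a l ih =>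
    constructor
    · rintro ⟨u, _, v, ⟨x, hx, y, hy, rfl⟩, rfl⟩
      have hx' : x = [a] := hx
      subst hx'
      have h1 := (ih y).mp hy
      have h2 : List.Sublist (a :: l) ([a] ++ y) := by simpa using h1
      exact h2.trans (List.sublist_append_right u _)
    · intro h
      obtain ⟨u, v, rfl, hv⟩ : ∃ u v, w = u ++ a :: v ∧ List.Sublist l v := by
        clear ih
        induction w with
        | nil => simp at h
        | cons b w ihw =>
          rcases List.cons_sublist_iff.mp h with ⟨r1, r2, hr, ha, hl⟩
          obtain ⟨u, v, rfl⟩ := List.append_of_mem ha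
          exact ⟨u, v ++ r2, by rw [hr]; simp, hl.trans (List.sublist_append_right v r2)⟩
      exact ⟨u, mem_star_all hab u, a :: v, ⟨[a], rfl, v, (ih v).mpr hv, rfl⟩, rfl⟩

theorem mem_compl [DecidableEq α] {ab : List α} (hab : ∀ a, a ∈ ab) (Ss : List (List α))
    (w : List α) : w ∈ (compl ab Ss).matches' ↔ ¬ List.Forall₂ (fun a S => a ∈ S) w Ss := by
  induction Ss generalizing w with
  | nil =>
    constructor
    · rintro ⟨x, hx, y, _, rfl⟩ h
      obtain ⟨a, _, rfl⟩ := (mem_sumL ab x).mp hx
      simp at h
    · intro h
      cases w with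
      | nil => exact absurd List.Forall₂.nil h
      | cons a w =>
        exact ⟨[a], (mem_sumL ab [a]).mpr ⟨a, hab a, rfl⟩, w, mem_star_all hab w, rfl⟩
  | cons S Ss ih =>
    constructor
    · rintro (h | (⟨x, hx, y, _, rfl⟩ | ⟨x, hx, y, hy, rfl⟩)) h2
      · have h' : w = [] := h
        subst h'
        simp at h2
      · obtain ⟨a, ha, rfl⟩ := (mem_sumL _ x).mp hx
        have h3 : List.Forall₂ (fun a S => a ∈ S) (a :: y) (S :: Ss) := h2
        rw [List.forall₂_cons] at h3
        rw [List.mem_filter] at ha
        have := ha.2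
        simp only [decide_eq_true_eq] at this
        exact this h3.1
      · obtain ⟨a, ha, rfl⟩ := (mem_sumL _ x).mp hx
        have h3 : List.Forall₂ (fun a S => a ∈ S) (a :: y) (S :: Ss) := h2
        rw [List.forall₂_cons] at h3
        exact (ih y).mp hy h3.2
    · intro h
      cases w with
      | nil => exact Or.inl rfl
      | cons a w =>
        rw [List.forall₂_cons] at h
        by_cases ha : a ∈ S
        · have h2 : ¬ List.Forall₂ (fun a S => a ∈ S) w Ss := fun h3 => h ⟨ha, h3⟩
          exact Or.inr (Or.inr ⟨[a], (mem_sumL _ _).mpr ⟨a, hab a, rfl⟩, w, (ih w).mpr h2, rfl⟩)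
        · refine Or.inr (Or.inl ⟨[a], (mem_sumL _ _).mpr ⟨a, ?_, rfl⟩, w,
            mem_star_all hab w, rfl⟩)
          rw [List.mem_filter]
          exact ⟨hab a, by simpa using ha⟩

theorem forall₂_fun {β : Type} (l : List β) (hl : l.Nodup) (g : β → List α) (w : List α)
    (h : List.Forall₂ (fun a S => a ∈ S) w (l.map g)) :
    ∃ f : {x // x ∈ l} → α, (∀ x, f x ∈ g x.1) ∧ w = l.attach.map f := by
  induction l generalizing w with
  | nil =>
    rw [List.map_nil, List.forall₂_nil_right_iff] at h
    subst h
    exact ⟨fun x => absurd x.2 (by simp), fun x => absurd x.2 (by simp), by simp⟩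
  | cons b l ih =>
    rw [List.nodup_cons] at hl
    rw [List.map_cons, List.forall₂_cons_right_iff] at h
    obtain ⟨a, w', ha, hw', rfl⟩ := h
    obtain ⟨f, hf, rfl⟩ := ih hl.2 w' hw'
    classical
    refine ⟨fun x => if hx : x.1 ∈ l then f ⟨x.1, hx⟩ else a, ?_, ?_⟩
    · intro x
      by_cases hx : x.1 ∈ l
      · simp only [hx, dite_true]
        exact hf ⟨x.1, hx⟩
      · simp only [hx, dite_false]
        have : x.1 = b := by
          rcases List.mem_cons.mp x.2 with h | h
          · exact h
          · exact absurd h hx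
        rw [this]
        exact ha
    · rw [List.attach_cons, List.map_cons, List.map_map]
      congr 1
      · simp [hl.1]
      · apply List.map_congr_left
        intro x _
        simp only [Function.comp_apply]
        rw [dif_pos x.2]

theorem sublist_pair {β : Type} [DecidableEq β] (l : List β) {x y : β} (hx : x ∈ l)
    (hy : y ∈ l) (hxy : x ≠ y) : List.Sublist [x, y] l ∨ List.Sublist [y, x] l := by
  induction l with
  | nil => simp at hx
  | cons a l ih =>
    rcases List.mem_cons.mp hx with hx1 | hx1
    · rcases List.mem_cons.mp hy with hy1 | hy1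
      · exact absurd (hx1.trans hy1.symm) hxy
      · left
        rw [hx1]
        exact (List.singleton_sublist.mpr hy1).cons_cons a
    · rcases List.mem_cons.mp hy with hy1 | hy1
      · right
        rw [hy1]
        exact (List.singleton_sublist.mpr hx1).cons_cons a
      · rcases ih hx1 hy1 with h | h
        · exact Or.inl (h.cons a)
        · exact Or.inr (h.cons a)

end Pool.Agent.H543R2.KA
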