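import Pool.Agent.H543R2.KA.Hard
import Pool.Agent.H520R2.Raz3

/-!
# The universal regular expressions `rho l`: universality and the lower bound
-/

namespace Pool.Agent.H543R2.KA

open RegularExpression Language
open scoped Computability
open Pool.Agent.H520R2

theorem forall₂_total {α β : Type} (l : List β) (hl : l.Nodup) (hall : ∀ x, x ∈ l)
    (g : β → List α) (w : List α) (h : List.Forall₂ (fun a S => a ∈ S) w (l.map g)) :
    ∃ f : β → α, (∀ x, f x ∈ g x) ∧ w = l.map f := by
  obtain ⟨f, hf, rfl⟩ := forall₂_fun l hl g w h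
  have key : ∀ F : β → α, (∀ x : {x // x ∈ l}, f x = F x.1) → l.attach.map f = l.map F := by
    intro F hF
    calc l.attach.map f = l.attach.map (fun x => F x.1) :=
          List.map_congr_left (fun x _ => hF x)
      _ = (l.attach.map Subtype.val).map F := by rw [List.map_map]; rfl
      _ = l.map F := by rw [List.attach_map_subtype_val]
  exact ⟨fun x => f ⟨x, hall x⟩, fun x => hf ⟨x, hall x⟩, key _ (fun x => rfl)⟩

section

variable {k q κ : ℕ}

theorem mem_vtxs (x : Vtx k q) : x ∈ vtxs k q := by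
  unfold vtxs
  rw [List.mem_flatMap]
  exact ⟨x.1, List.mem_finRange _, List.mem_map.mpr ⟨x.2, List.mem_finRange _, rfl⟩⟩

theorem nodup_vtxs : (vtxs k q).Nodup := by
  unfold vtxs
  rw [List.nodup_flatMap]
  constructor
  · intro i _
    exact (List.nodup_finRange q).map (fun u v h => (Prod.mk.inj h).2)
  · refine (List.nodup_finRange k).imp ?_
    intro i j hij
    rw [Function.onFun, List.disjoint_left]
    intro z hz hz'
    obtain ⟨u, _, rfl⟩ := List.mem_map.mp hz
    obtain ⟨v, _, hv⟩ := List.mem_map.mp hz'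
    exact hij (Prod.mk.inj hv).1.symm

theorem mem_ltrs (a : Ltr k q κ) : a ∈ ltrs k q κ := by
  unfold ltrs
  rw [List.mem_append]
  rcases a with x | ⟨x, c⟩
  · exact Or.inl (List.mem_map.mpr ⟨x, mem_vtxs x, rfl⟩)
  · right
    rw [List.mem_flatMap]
    exact ⟨x, mem_vtxs x, List.mem_map.mpr ⟨c, List.mem_finRange _, rfl⟩⟩

/-- the first part of a proper word -/
def wordA (π : Fin k → Fin q) : List (Ltr k q κ) :=
  (List.finRange k).map (fun i => Sum.inl (i, π i))

/-- the second part of a proper word -/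
def wordB (c : Vtx k q → Fin κ) : List (Ltr k q κ) :=
  (vtxs k q).map (fun x => Sum.inr (x, c x))

theorem mem_terms {x y : Vtx k q} (hxy : x.1 ≠ y.1) (c : Fin κ) :
    sub (ltrs k q κ) [Sum.inl x, Sum.inl y, Sum.inr (x, c), Sum.inr (y, c)] ∈ terms k q κ ∧
    sub (ltrs k q κ) [Sum.inl x, Sum.inl y, Sum.inr (y, c), Sum.inr (x, c)] ∈ terms k q κ := by
  unfold terms
  constructor
  · rw [List.mem_flatMap]
    refine ⟨x, mem_vtxs x, ?_⟩
    rw [List.mem_flatMap]
    refine ⟨y, mem_vtxs y, ?_⟩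
    rw [if_neg hxy, List.mem_flatMap]
    exact ⟨c, List.mem_finRange _, by simp⟩
  · rw [List.mem_flatMap]
    refine ⟨x, mem_vtxs x, ?_⟩
    rw [List.mem_flatMap]
    refine ⟨y, mem_vtxs y, ?_⟩
    rw [if_neg hxy, List.mem_flatMap]
    exact ⟨c, List.mem_finRange _, by simp⟩

theorem of_mem_terms {e : RegularExpression (Ltr k q κ)} (he : e ∈ terms k q κ) :
    ∃ x y : Vtx k q, ∃ c : Fin κ, x.1 ≠ y.1 ∧
      (e = sub (ltrs k q κ) [Sum.inl x, Sum.inl y, Sum.inr (x, c), Sum.inr (y, c)] ∨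
        e = sub (ltrs k q κ) [Sum.inl x, Sum.inl y, Sum.inr (y, c), Sum.inr (x, c)]) := by
  unfold terms at he
  rw [List.mem_flatMap] at he
  obtain ⟨x, _, he⟩ := he
  rw [List.mem_flatMap] at he
  obtain ⟨y, _, he⟩ := he
  by_cases hxy : x.1 = y.1
  · rw [if_pos hxy] at he
    simp at he
  · rw [if_neg hxy, List.mem_flatMap] at he
    obtain ⟨c, _, he⟩ := he
    refine ⟨x, y, c, hxy, ?_⟩
    simpa using he

/-- the proper words -/
theorem proper_word {w : List (Ltr k q κ)}
    (h : List.Forall₂ (fun a S => a ∈ S) w (shape k q κ)) :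
    ∃ (π : Fin k → Fin q) (c : Vtx k q → Fin κ), w = wordA π ++ wordB c := by
  unfold shape at h
  have h1 := List.forall₂_take_append _ _ _ h
  have h2 := List.forall₂_drop_append _ _ _ h
  obtain ⟨f, hf, hw1⟩ := forall₂_total (List.finRange k) (List.nodup_finRange k)
    (fun x => List.mem_finRange x) _ _ h1
  obtain ⟨g, hg, hw2⟩ := forall₂_total (vtxs k q) nodup_vtxs mem_vtxs _ _ h2
  have hf' : ∀ i : Fin k, ∃ u : Fin q, Sum.inl (i, u) = f i := by
    intro i
    obtain ⟨u, _, hu⟩ := List.mem_map.mp (hf i)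
    exact ⟨u, hu⟩
  have hg' : ∀ x : Vtx k q, ∃ c : Fin κ, Sum.inr (x, c) = g x := by
    intro x
    obtain ⟨u, _, hu⟩ := List.mem_map.mp (hg x)
    exact ⟨u, hu⟩
  choose π hπ using hf'
  choose c hc using hg'
  refine ⟨π, c, ?_⟩
  rw [← List.take_append_drop (((List.finRange k).map (fun i => (List.finRange q).map
    (fun u => (Sum.inl (i, u) : Ltr k q κ)))).length) w, hw1, hw2]
  unfold wordA wordB
  congr 1
  · apply List.map_congr_left
    intro i _
    exact (hπ i).symm
  · apply List.map_congr_left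
    intro x _
    exact (hc x).symm

theorem shape_proper (π : Fin k → Fin q) (c : Vtx k q → Fin κ) :
    List.Forall₂ (fun a S => a ∈ S) (wordA π ++ wordB c) (shape k q κ) := by
  unfold shape wordA wordB
  apply List.rel_append
  · rw [List.forall₂_map_left_iff, List.forall₂_map_right_iff, List.forall₂_same]
    intro i _
    exact List.mem_map.mpr ⟨π i, List.mem_finRange _, rfl⟩
  · rw [List.forall₂_map_left_iff, List.forall₂_map_right_iff, List.forall₂_same]
    intro x _
    exact List.mem_map.mpr ⟨c x, List.mem_finRange _, rfl⟩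

theorem universal (hκ : κ < k) (w : List (Ltr k q κ)) : w ∈ (rhoG k q κ).matches' := by
  by_cases h : List.Forall₂ (fun a S => a ∈ S) w (shape k q κ)
  · right
    show w ∈ (sumE (terms k q κ)).matches'
    rw [mem_sumE]
    obtain ⟨π, c, rfl⟩ := proper_word h
    obtain ⟨i, j, hij, hc⟩ := Fintype.exists_ne_map_eq_of_card_lt
      (fun i : Fin k => c (i, π i)) (by simpa using hκ)
    have main : ∀ i j : Fin k, i ≠ j → c (i, π i) = c (j, π j) →
        List.Sublist [i, j] (List.finRange k) →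
        ∃ e ∈ terms k q κ, wordA π ++ wordB c ∈ e.matches' := by
      intro i j hij hc hsub
      have hA : List.Sublist [(Sum.inl (i, π i) : Ltr k q κ), Sum.inl (j, π j)] (wordA π) :=
        hsub.map (fun i => (Sum.inl (i, π i) : Ltr k q κ))
      have hne : ((i, π i) : Vtx k q) ≠ (j, π j) := fun h => hij (Prod.mk.inj h).1
      rcases sublist_pair (vtxs k q) (mem_vtxs (i, π i)) (mem_vtxs (j, π j)) hne with h1 | h1
      · have hB := h1.map (fun x => (Sum.inr (x, c x) : Ltr k q κ))
        refine ⟨_, (mem_terms (x := (i, π i)) (y := (j, π j)) hij (c (i, π i))).1, ?_⟩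
        rw [mem_sub mem_ltrs]
        have := hA.append hB
        simp only [List.map_cons, List.map_nil] at this
        rw [← hc] at this
        exact this
      · have hB := h1.map (fun x => (Sum.inr (x, c x) : Ltr k q κ))
        refine ⟨_, (mem_terms (x := (i, π i)) (y := (j, π j)) hij (c (i, π i))).2, ?_⟩
        rw [mem_sub mem_ltrs]
        have := hA.append hB
        simp only [List.map_cons, List.map_nil] at this
        rw [← hc] at this
        exact this
    rcases sublist_pair (List.finRange k) (List.mem_finRange i) (List.mem_finRange j) hij with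
      h1 | h1
    · exact main i j hij hc h1
    · exact main j i (Ne.symm hij) hc.symm h1
  · left
    show w ∈ (compl (ltrs k q κ) (shape k q κ)).matches'
    rw [mem_compl mem_ltrs]
    exact h

theorem terms_sound {e : RegularExpression (Ltr k q κ)} (he : e ∈ terms k q κ) :
    ∃ x y : Vtx k q, ∀ (π : Fin k → Fin q) (c : Vtx k q → Fin κ),
      wordA π ++ wordB c ∈ e.matches' →
        adjFn x y (posG (k := k) (q := q) (fun z => z) π) = true ∧
          adjFn x y (negG c) = false := by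
  obtain ⟨x, y, c0, hxy, he⟩ := of_mem_terms he
  refine ⟨x, y, ?_⟩
  intro π c hw
  have hmem : (Sum.inl x : Ltr k q κ) ∈ wordA π ++ wordB c ∧
      (Sum.inl y : Ltr k q κ) ∈ wordA π ++ wordB c ∧
      (Sum.inr (x, c0) : Ltr k q κ) ∈ wordA π ++ wordB c ∧
      (Sum.inr (y, c0) : Ltr k q κ) ∈ wordA π ++ wordB c := by
    rcases he with rfl | rfl
    · rw [mem_sub mem_ltrs] at hw
      have := hw.subset
      refine ⟨this (by simp), this (by simp), this (by simp), this (by simp)⟩
    · rw [mem_sub mem_ltrs] at hw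
      have := hw.subset
      refine ⟨this (by simp), this (by simp), this (by simp), this (by simp)⟩
  have hA : ∀ z : Vtx k q, (Sum.inl z : Ltr k q κ) ∈ wordA π ++ wordB c →
      ∃ i, z = (i, π i) := by
    intro z hz
    rcases List.mem_append.mp hz with hz | hz
    · obtain ⟨i, _, hi⟩ := List.mem_map.mp hz
      exact ⟨i, (Sum.inl.inj hi).symm⟩
    · obtain ⟨i, _, hi⟩ := List.mem_map.mp hz
      exact absurd hi (by simp)
  have hB : ∀ (z : Vtx k q) (d : Fin κ), (Sum.inr (z, d) : Ltr k q κ) ∈ wordA π ++ wordB c →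
      c z = d := by
    intro z d hz
    rcases List.mem_append.mp hz with hz | hz
    · obtain ⟨i, _, hi⟩ := List.mem_map.mp hz
      exact absurd hi (by simp)
    · obtain ⟨i, _, hi⟩ := List.mem_map.mp hz
      have h1 := Sum.inr.inj hi
      obtain ⟨rfl, h2⟩ := Prod.mk.inj h1
      exact h2
  constructor
  · simp only [adjFn, decide_eq_true_eq]
    refine ⟨fun h => hxy (congrArg Prod.fst h), hA x hmem.1, hA y hmem.2.1⟩
  · simp only [adjFn, decide_eq_false_iff_not]
    intro h
    have h1 : c x ≠ c y := h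
    exact h1 ((hB x c0 hmem.2.2.1).trans (hB y c0 hmem.2.2.2).symm)

end

section leaf

theorem leaf_of {α X I J : Type} {B : Set (X → Bool)} (htrue : (fun _ => true) ∈ B)
    (hfalse : (fun _ => false) ∈ B) (wa : I → List α) (xa : I → X) (ltr : J → α)
    (wb : J → List α) (xb : J → X) (E : RegularExpression α) (g : X → Bool) (hg : g ∈ B)
    (hE : ∀ i j, wa i ++ ltr j :: wb j ∈ E.matches' → g (xa i) = true ∧ g (xb j) = false)
    (o : Oc α) (ho : o ∈ occs E) :
    ∃ f ∈ B, (∀ i, wa i ∈ o.2.1 → f (xa i) = true) ∧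
      ∀ j, o.1 = ltr j → wb j ∈ o.2.2 → f (xb j) = false := by
  by_cases hA : ∃ i, wa i ∈ o.2.1
  · by_cases hB : ∃ j, o.1 = ltr j ∧ wb j ∈ o.2.2
    · obtain ⟨i0, hi0⟩ := hA
      obtain ⟨j0, hj0, hj1⟩ := hB
      refine ⟨g, hg, ?_, ?_⟩
      · intro i hi
        have := occs_sound E o ho _ hi _ hj1
        rw [hj0] at this
        exact (hE i j0 this).1
      · intro j h1 h2
        have := occs_sound E o ho _ hi0 _ h2
        rw [h1] at this
        exact (hE i0 j this).2
    · refine ⟨_, htrue, fun _ _ => rfl, ?_⟩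
      intro j h1 h2
      exact absurd ⟨j, h1, h2⟩ hB
  · refine ⟨_, hfalse, ?_, fun _ _ _ => rfl⟩
    intro i hi
    exact absurd ⟨i, hi⟩ hA

theorem occs_sumL {α : Type} (l : List α) (o : Oc α) :
    o ∈ occs (sumL l) ↔ ∃ a ∈ l, o = (a, 1, 1) := by
  induction l with
  | nil =>
    constructor
    · intro h
      have h0 : occs (sumL ([] : List α)) = [] := rfl
      rw [h0] at h
      simp at h
    · rintro ⟨a, ha, _⟩; simp at ha
  | cons a l ih =>
    constructor
    · intro h
      rcases List.mem_append.mp h with h | h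
      · have h' : o ∈ ([(a, 1, 1)] : List (Oc α)) := h
        rw [List.mem_singleton] at h'
        exact ⟨a, List.mem_cons_self, h'⟩
      · obtain ⟨b, hb, hw⟩ := ih.mp h
        exact ⟨b, List.mem_cons_of_mem _ hb, hw⟩
    · rintro ⟨b, hb, rfl⟩
      rcases List.mem_cons.mp hb with rfl | hb
      · exact List.mem_append_left _ (List.mem_singleton_self _)
      · exact List.mem_append_right _ (ih.mpr ⟨b, hb, rfl⟩)

end leaf

/-- the interpolant -/
theorem interpolant {k q κ : ℕ} (hk : 1 ≤ k) (hq : 1 ≤ q) {c : ℕ} (hc : 1 ≤ c)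
    {π : List (Line (Ltr k q κ))}
    (hπ : IsProof c π)
    (hst : (RegularExpression.star (sumL (ltrs k q κ)), rhoG k q κ, 1) ∈ π) :
    ∃ f : SimpleGraph (Vtx k q) → Bool, MComp (GB (Vtx k q)) (size π ^ 3 * 4 ^ (c + 1)) f ∧
      (∀ π, f (posG (k := k) (q := q) (fun z => z) π) = true) ∧
      ∀ c : Vtx k q → Fin κ, f (negG c) = false := by
  have hne : ∀ c : Vtx k q → Fin κ, ∃ (a : Ltr k q κ) (w : List (Ltr k q κ)),
      wordB c = a :: w := by
    intro c
    apply List.exists_cons_of_ne_nil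
    unfold wordB
    intro h
    rw [List.map_eq_nil_iff] at h
    have := mem_vtxs (⟨⟨0, hk⟩, ⟨0, hq⟩⟩ : Vtx k q)
    rw [h] at this
    simp at this
  choose ltr wb hwb using hne
  have htrue : (fun _ => true) ∈ GB (Vtx k q) := Or.inl ⟨true, rfl⟩
  have hfalse : (fun _ => false) ∈ GB (Vtx k q) := Or.inl ⟨false, rfl⟩
  refine interpolation htrue hfalse hc hπ hst (fun π : Fin k → Fin q => wordA π)
    (fun π => posG (k := k) (q := q) (fun z => z) π) ltr wb (fun c => negG c) ?_ ?_ ?_
  · intro o ho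
    rcases List.mem_append.mp ho with ho | ho
    · refine leaf_of htrue hfalse _ _ ltr wb _ _ (fun _ => true) htrue ?_ o ho
      intro i j hij
      exfalso
      rw [mem_compl mem_ltrs, ← hwb j] at hij
      exact hij (shape_proper i j)
    · obtain ⟨e, he, hoe⟩ := (mem_occs_sumE _ _).mp ho
      obtain ⟨x, y, hxy⟩ := terms_sound he
      refine leaf_of htrue hfalse _ _ ltr wb _ _ (adjFn x y) (Or.inr ⟨x, y, rfl⟩) ?_ o hoe
      intro i j hij
      rw [← hwb j] at hij
      exact hxy i j hij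
  · intro i o ho
    obtain ⟨z, hz, rfl⟩ := List.mem_map.mp (occs_star _ ▸ ho)
    obtain ⟨a, ha, rfl⟩ := (occs_sumL _ _).mp hz
    show wordA i ∈ (sumL (ltrs k q κ)).matches'∗ * 1
    rw [mul_one]
    exact mem_star_all mem_ltrs _
  · intro j
    refine ⟨_, List.mem_map.mpr ⟨(ltr j, 1, 1), (occs_sumL _ _).mpr ⟨ltr j, mem_ltrs _, rfl⟩,
      rfl⟩, rfl, ?_⟩
    show wb j ∈ 1 * (sumL (ltrs k q κ)).matches'∗
    rw [one_mul]
    exact mem_star_all mem_ltrs _

/-- the arithmetic of Razborov's bound -/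
theorem raz_arith {l s : ℕ} (hl2 : 2 ≤ l)
    (h : (200 * l ^ 6) ^ (l + 1) ≤ s * ((10 * l ^ 2) ^ l * l.factorial) ^ 2 ∨
      2 ^ (10 * l ^ 2) ≤ 2 * (s * ((10 * l ^ 2) ^ l * l.factorial) ^ 2)) : 2 ^ l ≤ s := by
  by_contra hs
  push Not at hs
  have hpos6 : 1 ≤ l ^ 6 := Nat.one_le_pow _ _ (by omega)
  have hM := arith1 l (by omega)
  set M2 := ((10 * l ^ 2) ^ l * l.factorial) ^ 2 with hM2
  have hM2pos : 0 < M2 := by positivity
  rcases h with h | h
  · have h1 : s * M2 < 2 ^ l * M2 := Nat.mul_lt_mul_of_pos_right hs hM2pos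
    have h2 : 2 ^ l * M2 ≤ (200 * l ^ 6) ^ (l + 1) := by
      calc 2 ^ l * M2 ≤ 2 ^ l * (100 * l ^ 6) ^ l := Nat.mul_le_mul_left _ hM
        _ = (200 * l ^ 6) ^ l := by rw [← mul_pow]; congr 1; ring
        _ ≤ (200 * l ^ 6) ^ (l + 1) := Nat.pow_le_pow_right (by omega) (by omega)
    omega
  · have h1 : s * M2 < 2 ^ l * M2 := Nat.mul_lt_mul_of_pos_right hs hM2pos
    have hl2l : l ≤ 2 ^ (l - 1) := by
      obtain ⟨r, hr⟩ : ∃ r, l = r + 1 := ⟨l - 1, by omega⟩
      rw [hr]
      simp only [Nat.add_sub_cancel]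
      exact Nat.lt_two_pow_self
    have h2 : 2 * (2 ^ l * M2) ≤ 2 ^ (10 * l ^ 2) := by
      calc 2 * (2 ^ l * M2) ≤ 2 * (2 ^ l * (100 * l ^ 6) ^ l) := by gcongr
        _ ≤ 2 * (2 ^ l * (2 ^ 7 * (2 ^ (l - 1)) ^ 6) ^ l) := by gcongr; norm_num
        _ = 2 ^ (1 + l + (7 + (l - 1) * 6) * l) := by
            rw [← pow_mul, ← pow_add, ← pow_mul]
            rw [pow_add, pow_add]
            ring
        _ ≤ 2 ^ (10 * l ^ 2) := by
            apply Nat.pow_le_pow_right (by norm_num)
            obtain ⟨r, hr⟩ : ∃ r, l = r + 1 := ⟨l - 1, by omega⟩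
            rw [hr]
            simp only [Nat.add_sub_cancel]
            nlinarith
    omega

/-- **The lower bound.** -/
theorem lower {l : ℕ} (hl : 2 ≤ l) {c : ℕ} (hc : 1 ≤ c)
    {π : List (Line (Ltr (l ^ 2 + 1) (200 * l ^ 6) (l ^ 2)))}
    (hπ : IsProof c π) (hst : (sigmaStar l, rho l, 1) ∈ π) :
    2 ^ l ≤ size π ^ 3 * 4 ^ (c + 1) := by
  have hq : 1 ≤ 200 * l ^ 6 := by
    have : 1 ≤ l ^ 6 := Nat.one_le_pow _ _ (by omega)
    omega
  obtain ⟨f, hf, hpos, hneg⟩ := interpolant (k := l ^ 2 + 1) (q := 200 * l ^ 6) (κ := l ^ 2)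
    (by omega) hq hc hπ hst
  have hκ : 1 ≤ l ^ 2 := Nat.one_le_pow _ _ (by omega)
  have hll : l * (l - 1) ≤ l ^ 2 := by
    rw [pow_two]
    exact Nat.mul_le_mul_left _ (Nat.sub_le _ _)
  have hp : 2 ≤ 10 * l ^ 2 := by omega
  exact raz_arith hl (raz_core (k := l ^ 2 + 1) (q := 200 * l ^ 6) (κ := l ^ 2) (l := l)
    (p := 10 * l ^ 2) (fun z => z) (fun _ _ h => h) hq hκ hl hll hp f hf hpos hneg)

end Pool.Agent.H543R2.KA
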