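import Pool.Agent.H543R2.KA.Defs

/-!
# The universal regular expressions `rho l`: definitions
-/

namespace Pool.Agent.H543R2.KA

open RegularExpression

/-- The sum of the letters in a list. -/
def sumL {α : Type} : List α → RegularExpression α
  | [] => 0
  | a :: l => char a + sumL l

/-- The sum of the regular expressions in a list. -/
def sumE {α : Type} : List (RegularExpression α) → RegularExpression α
  | [] => 0
  | e :: l => e + sumE l

/-- `sub ab [a₁, …, a_m]` is the expression `Σ* a₁ Σ* a₂ ⋯ Σ* a_m Σ*`, where `Σ` is the sum of the
letters in `ab`. -/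
def sub {α : Type} (ab : List α) : List α → RegularExpression α
  | [] => RegularExpression.star (sumL ab)
  | a :: l => RegularExpression.star (sumL ab) * (char a * sub ab l)

/-- `compl ab [S₁, …, S_m]`: the words over `ab` that are not of the form `a₁ ⋯ a_m` with
`a_i ∈ S_i` for all `i`. -/
def compl {α : Type} [DecidableEq α] (ab : List α) : List (List α) → RegularExpression α
  | [] => sumL ab * RegularExpression.star (sumL ab)
  | S :: Ss => 1 + (sumL (ab.filter (fun a => a ∉ S)) * RegularExpression.star (sumL ab) +
      sumL ab * compl ab Ss)

/-- The vertices: `k` groups of `q` vertices each. -/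
abbrev Vtx (k q : ℕ) : Type := Fin k × Fin q

/-- The alphabet: a letter for every vertex, and a letter for every pair of a vertex and a
colour. -/
abbrev Ltr (k q κ : ℕ) : Type := Vtx k q ⊕ (Vtx k q × Fin κ)

/-- all vertices -/
def vtxs (k q : ℕ) : List (Vtx k q) :=
  (List.finRange k).flatMap (fun i => (List.finRange q).map (fun u => (i, u)))

/-- all letters -/
def ltrs (k q κ : ℕ) : List (Ltr k q κ) :=
  (vtxs k q).map Sum.inl ++
    (vtxs k q).flatMap (fun x => (List.finRange κ).map (fun c => Sum.inr (x, c)))

/-- The shape of the proper words: first one vertex from each group, then a colour for every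
vertex. -/
def shape (k q κ : ℕ) : List (List (Ltr k q κ)) :=
  (List.finRange k).map (fun i => (List.finRange q).map (fun u => Sum.inl (i, u))) ++
    (vtxs k q).map (fun x => (List.finRange κ).map (fun c => Sum.inr (x, c)))

/-- The terms: two chosen vertices of different groups have the same colour. -/
def terms (k q κ : ℕ) : List (RegularExpression (Ltr k q κ)) :=
  (vtxs k q).flatMap (fun x => (vtxs k q).flatMap (fun y =>
    if x.1 = y.1 then [] else (List.finRange κ).flatMap (fun c =>
      [sub (ltrs k q κ) [Sum.inl x, Sum.inl y, Sum.inr (x, c), Sum.inr (y, c)],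
        sub (ltrs k q κ) [Sum.inl x, Sum.inl y, Sum.inr (y, c), Sum.inr (x, c)]])))

/-- The regular expression: improper words, and words in which two chosen vertices have the same
colour. -/
def rhoG (k q κ : ℕ) : RegularExpression (Ltr k q κ) :=
  compl (ltrs k q κ) (shape k q κ) + sumE (terms k q κ)

/-- The alphabet with the parameters used: `l² + 1` groups of `200 l⁶` vertices and `l²`
colours. -/
abbrev Alph (l : ℕ) : Type := Ltr (l ^ 2 + 1) (200 * l ^ 6) (l ^ 2)

/-- The regular expression with the parameters used. -/
def rho (l : ℕ) : RegularExpression (Alph l) :=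
  rhoG (l ^ 2 + 1) (200 * l ^ 6) (l ^ 2)

/-- The expression `Σ*` over the same alphabet. -/
def sigmaStar (l : ℕ) : RegularExpression (Alph l) :=
  RegularExpression.star (sumL (ltrs (l ^ 2 + 1) (200 * l ^ 6) (l ^ 2)))

end Pool.Agent.H543R2.KA
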