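import Pool.Agent.H543R2.KA.HardDefs

/-!
# The length of `rho l`
-/

namespace Pool.Agent.H543R2.KA

open RegularExpression

variable {α : Type}

theorem len_sumL (l : List α) : len (sumL l) = 2 * l.length + 1 := by
  induction l with
  | nil => rfl
  | cons a l ih =>
    show len (char a) + len (sumL l) + 1 = _
    rw [ih]
    simp only [len, List.length_cons]
    ring

theorem len_sub (ab l : List α) :
    len (sub ab l) = l.length * (2 * ab.length + 5) + (2 * ab.length + 2) := by
  induction l with
  | nil =>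
    show len (sumL ab) + 1 = _
    rw [len_sumL]
    simp
  | cons a l ih =>
    show (len (sumL ab) + 1) + (len (char a) + len (sub ab l) + 1) + 1 = _
    rw [ih, len_sumL]
    simp only [len, List.length_cons]
    ring

theorem len_compl [DecidableEq α] (ab : List α) (Ss : List (List α)) :
    len (compl ab Ss) ≤ Ss.length * (6 * ab.length + 9) + (4 * ab.length + 4) := by
  induction Ss with
  | nil =>
    show len (sumL ab) + (len (sumL ab) + 1) + 1 ≤ _
    rw [len_sumL]
    simp only [List.length_nil]
    omega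
  | cons S Ss ih =>
    show 1 + ((len (sumL (ab.filter (fun a => a ∉ S))) + (len (sumL ab) + 1) + 1) +
      (len (sumL ab) + len (compl ab Ss) + 1) + 1) + 1 ≤ _
    rw [len_sumL, len_sumL]
    have h1 : (ab.filter (fun a => a ∉ S)).length ≤ ab.length := List.length_filter_le _ _
    rw [List.length_cons, add_mul, one_mul]
    omega

theorem len_sumE (l : List (RegularExpression α)) (m : ℕ) (h : ∀ e ∈ l, len e ≤ m) :
    len (sumE l) ≤ l.length * (m + 1) + 1 := by
  induction l with
  | nil => show 1 ≤ _; simp
  | cons a l ih =>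
    show len a + len (sumE l) + 1 ≤ _
    have h1 := h a List.mem_cons_self
    have h2 := ih (fun e he => h e (List.mem_cons_of_mem _ he))
    rw [List.length_cons, add_mul, one_mul]
    omega

theorem length_vtxs (k q : ℕ) : (vtxs k q).length = k * q := by
  unfold vtxs
  rw [List.length_flatMap]
  simp

theorem length_ltrs (k q κ : ℕ) : (ltrs k q κ).length = k * q + k * q * κ := by
  unfold ltrs
  rw [List.length_append, List.length_map, List.length_flatMap, length_vtxs]
  simp [length_vtxs]

theorem length_shape (k q κ : ℕ) : (shape k q κ).length = k + k * q := by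
  unfold shape
  rw [List.length_append, List.length_map, List.length_map, length_vtxs]
  simp

theorem length_terms (k q κ : ℕ) : (terms k q κ).length ≤ k * q * (k * q * (2 * κ)) := by
  unfold terms
  rw [List.length_flatMap]
  refine (List.sum_le_card_nsmul _ (k * q * (2 * κ)) ?_).trans ?_
  · intro n hn
    rw [List.mem_map] at hn
    obtain ⟨x, _, rfl⟩ := hn
    rw [List.length_flatMap]
    refine (List.sum_le_card_nsmul _ (2 * κ) ?_).trans ?_
    · intro n hn
      rw [List.mem_map] at hn
      obtain ⟨y, _, rfl⟩ := hn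
      split_ifs with h
      · simp
      · rw [List.length_flatMap]
        simp
        omega
    · rw [List.length_map, length_vtxs, smul_eq_mul]
  · rw [List.length_map, length_vtxs, smul_eq_mul]

theorem len_rho {l : ℕ} (hl : 1 ≤ l) : len (rho l) ≤ 10 ^ 10 * l ^ 28 := by
  set k := l ^ 2 + 1 with hk
  set q := 200 * l ^ 6 with hq
  set κ := l ^ 2 with hκ
  have h1 : len (rho l) ≤ (k + k * q) * (6 * (k * q + k * q * κ) + 9) +
      (4 * (k * q + k * q * κ) + 4) +
      (k * q * (k * q * (2 * κ)) * ((4 * (2 * (k * q + k * q * κ) + 5) +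
        (2 * (k * q + k * q * κ) + 2)) + 1) + 1) + 1 := by
    show len (compl (ltrs k q κ) (shape k q κ)) + len (sumE (terms k q κ)) + 1 ≤ _
    have h2 := len_compl (ltrs k q κ) (shape k q κ)
    rw [length_shape, length_ltrs] at h2
    have h3 := len_sumE (terms k q κ) (4 * (2 * (k * q + k * q * κ) + 5) +
        (2 * (k * q + k * q * κ) + 2)) (by
      intro e he
      have : ∃ a b c d, e = sub (ltrs k q κ) [a, b, c, d] := by
        unfold terms at he
        rw [List.mem_flatMap] at he
        obtain ⟨x, _, he⟩ := he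
        rw [List.mem_flatMap] at he
        obtain ⟨y, _, he⟩ := he
        by_cases hxy : x.1 = y.1
        · rw [if_pos hxy] at he
          simp at he
        · rw [if_neg hxy, List.mem_flatMap] at he
          obtain ⟨c, _, he⟩ := he
          rcases List.mem_cons.mp he with rfl | he
          · exact ⟨_, _, _, _, rfl⟩
          · rw [List.mem_singleton] at he
            exact ⟨_, _, _, _, he⟩
      obtain ⟨a, b, c, d, rfl⟩ := this
      rw [len_sub, length_ltrs]
      simp only [List.length_cons, List.length_nil]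
      omega)
    have h4 := length_terms k q κ
    have h5 : (terms k q κ).length * ((4 * (2 * (k * q + k * q * κ) + 5) +
        (2 * (k * q + k * q * κ) + 2)) + 1) ≤ k * q * (k * q * (2 * κ)) *
        ((4 * (2 * (k * q + k * q * κ) + 5) + (2 * (k * q + k * q * κ) + 2)) + 1) :=
      Nat.mul_le_mul_right _ h4
    omega
  have hk2 : k ≤ 2 * l ^ 2 := by
    have : 1 ≤ l ^ 2 := Nat.one_le_pow _ _ hl
    omega
  have hkq : k * q ≤ 400 * l ^ 8 := by
    calc k * q ≤ 2 * l ^ 2 * (200 * l ^ 6) := Nat.mul_le_mul hk2 le_rfl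
      _ = 400 * l ^ 8 := by ring
  have hpow : ∀ n : ℕ, 1 ≤ l ^ n := fun n => Nat.one_le_pow _ _ hl
  have ha : k * q + k * q * κ ≤ 800 * l ^ 10 := by
    calc k * q + k * q * κ = k * q * (κ + 1) := by ring
      _ ≤ 400 * l ^ 8 * (2 * l ^ 2) := Nat.mul_le_mul hkq (by
          have := hpow 2
          omega)
      _ = 800 * l ^ 10 := by ring
  have hmono : ∀ a b : ℕ, a ≤ b → l ^ a ≤ l ^ b := fun a b h => Nat.pow_le_pow_right hl h
  calc len (rho l) ≤ _ := h1
    _ ≤ (2 * l ^ 2 + 400 * l ^ 8) * (6 * (800 * l ^ 10) + 9) + (4 * (800 * l ^ 10) + 4) +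
      (400 * l ^ 8 * (400 * l ^ 8 * (2 * l ^ 2)) * ((4 * (2 * (800 * l ^ 10) + 5) +
        (2 * (800 * l ^ 10) + 2)) + 1) + 1) + 1 := by gcongr
    _ ≤ (2 * l ^ 8 + 400 * l ^ 8) * (6 * (800 * l ^ 10) + 9 * l ^ 10) +
      (4 * (800 * l ^ 10) + 4 * l ^ 10) +
      (400 * l ^ 8 * (400 * l ^ 8 * (2 * l ^ 2)) * ((4 * (2 * (800 * l ^ 10) + 5 * l ^ 10) +
        (2 * (800 * l ^ 10) + 2 * l ^ 10)) + l ^ 10) + l ^ 28) + l ^ 28 := by
          have h10 := hpow 10
          have h28 := hpow 28
          have h28' := hmono 2 8 (by norm_num)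
          gcongr <;> omega
    _ = 402 * 4809 * l ^ 18 + 3204 * l ^ 10 + (320000 * 8023 + 2) * l ^ 28 := by ring
    _ ≤ 402 * 4809 * l ^ 28 + 3204 * l ^ 28 + (320000 * 8023 + 2) * l ^ 28 := by
          have h1 := hmono 18 28 (by norm_num)
          have h2 := hmono 10 28 (by norm_num)
          gcongr
    _ ≤ 10 ^ 10 * l ^ 28 := by
          rw [← add_mul, ← add_mul]
          exact Nat.mul_le_mul_right _ (by norm_num)

end Pool.Agent.H543R2.KA
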