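import Pool.Agent.H543R2.KA.Pos

/-!
# All rules are sound and respect closed sets of atoms
-/

namespace Pool.Agent.H543R2.KA

open RegularExpression Language
open scoped Computability

variable {α : Type}

/-- Arden's inequality -/
theorem arden {A B X : Language α} (hA : [] ∉ A) (h : X ≤ A * X + B) : X ≤ A∗ * B := by
  have key : ∀ n : ℕ, ∀ w ∈ X, w.length ≤ n → w ∈ A∗ * B := by
    intro n
    induction n with
    | zero =>
      intro w hw hn
      rcases h hw with ⟨a, ha, x, hx, rfl⟩ | hb
      · exfalso
        have : a = [] := by
          have : (a ++ x).length ≤ 0 := hn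
          rw [List.length_append] at this
          exact List.length_eq_zero_iff.mp (by omega)
        rw [this] at ha
        exact hA ha
      · exact ⟨[], Language.nil_mem_kstar _, w, hb, rfl⟩
    | succ n ih =>
      intro w hw hn
      rcases h hw with ⟨a, ha, x, hx, rfl⟩ | hb
      · have ha' : a ≠ [] := by
          rintro rfl
          exact hA ha
        have hlen : (a ++ x).length ≤ n + 1 := hn
        rw [List.length_append] at hlen
        have ha'' : 0 < a.length := List.length_pos_iff.mpr ha'
        have h1 := ih x hx (by omega)
        have h2 : A * (A∗ * B) ≤ A∗ * B := by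
          rw [← mul_assoc]
          exact mul_le_mul' mul_kstar_le_kstar le_rfl
        exact h2 ⟨a, ha, x, h1, rfl⟩
      · exact ⟨[], Language.nil_mem_kstar _, w, hb, rfl⟩
  intro w hw
  exact key _ w hw le_rfl

/-- proofs are sound -/
theorem proof_sound {c : ℕ} {π : List (Line α)}
    (hπ : IsProof c π) : ∀ l ∈ π, l.1.matches' ≤ l.2.1.matches' := by
  induction π with
  | nil => intro l hl; simp at hl
  | cons m π ih =>
    obtain ⟨hj, hπ'⟩ := hπ
    have ih' := ih hπ'
    intro l hl
    rcases List.mem_cons.mp hl with rfl | hl
    · obtain ⟨e1, e2, e3⟩ := l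
      simp only at hj ⊢
      cases hj with
      | ax h => exact inst_sound h
      | trans h1 h2 => exact (ih' _ h1).trans (ih' _ h2)
      | add h1 h2 => exact add_le_add (ih' _ h1) (ih' _ h2)
      | mul h1 h2 => exact mul_le_mul' (ih' _ h1) (ih' _ h2)
      | star h => exact kstar_mono (ih' _ h)
      | @ind a b x r h =>
        have h1 : a.matches' * e2.matches' + b.matches' ≤ e2.matches' := ih' _ h
        rw [add_le_iff] at h1
        exact kstar_mul_le h1.2 h1.1
      | sal ha h => exact arden ha (ih' _ h)
    · exact ih' l hl

theorem lines_ok {c : ℕ} (hc : 1 ≤ c) {π0 : List (Line α)}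
    {D : Set (Atom α)} (hD : Closed c π0 D) (w : List α)
    {π : List (Line α)} (hπ : IsProof c π)
    (hsub : ∀ l ∈ π, l ∈ π0) : ∀ l ∈ π, LineOK D w l.1 l.2.1 l.2.2 := by
  induction π with
  | nil => intro l hl; simp at hl
  | cons m π ih =>
    have hsnd := proof_sound hπ
    obtain ⟨hj, hπ'⟩ := hπ
    have ih' := ih hπ' (fun l hl => hsub l (List.mem_cons_of_mem _ hl))
    have hsub' : ∀ l ∈ π, l ∈ π0 := fun l hl => hsub l (List.mem_cons_of_mem _ hl)
    have hsnd' := proof_sound hπ'
    intro l hl
    rcases List.mem_cons.mp hl with rfl | hl
    · have hl0 := hsub l List.mem_cons_self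
      obtain ⟨e1, e2, e3⟩ := l
      simp only at hj ⊢
      cases hj with
      | ax h => exact inst_ok hc hD w hl0 h
      | trans h1 h2 =>
        intro P hP
        exact ih' _ h1 P (ih' _ h2 P hP)
      | @add s t s' t' r h1 h2 =>
        intro P hP o ho hw
        rcases List.mem_append.mp (occs_add s s' ▸ ho) with ho1 | ho1
        · have h3 : (s, o, e3) ∈ D := by
            refine ih' _ h1 P ?_ o ho1 hw
            intro z hz hwz
            exact closed_single hD (atoms_right (hsub' _ h1) hz)
              (atoms_right hl0 (List.mem_append_left _ hz)) rfl le_rfl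
              (hP z (List.mem_append_left _ hz) hwz)
          exact closed_single hD (atoms_left hl0 ho) (atoms_left (hsub' _ h1) ho1) rfl le_rfl h3
        · have h3 : (s', o, e3) ∈ D := by
            refine ih' _ h2 P ?_ o ho1 hw
            intro z hz hwz
            exact closed_single hD (atoms_right (hsub' _ h2) hz)
              (atoms_right hl0 (List.mem_append_right _ hz)) rfl le_rfl
              (hP z (List.mem_append_right _ hz) hwz)
          exact closed_single hD (atoms_left hl0 ho) (atoms_left (hsub' _ h2) ho1) rfl le_rfl h3
      | @mul s t s' t' r h1 h2 =>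
        intro P hP o ho hw
        have hst : s.matches' ≤ t.matches' := hsnd' _ h1
        have hst' : s'.matches' ≤ t'.matches' := hsnd' _ h2
        rcases List.mem_append.mp (occs_mul s s' ▸ ho) with ho1 | ho1
        · obtain ⟨z, hz, rfl⟩ := List.mem_map.mp ho1
          have h3 : (s, z, t' * e3) ∈ D := by
            refine ih' _ h1 P ?_ z hz hw
            intro z' hz' hw'
            have hz'' : (z'.1, z'.2.1, z'.2.2 * t'.matches') ∈ occs (t * t') :=
              List.mem_append_left _ (List.mem_map.mpr ⟨z', hz', rfl⟩)
            refine closed_single hD (atoms_right (hsub' _ h1) hz')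
              (atoms_right hl0 hz'') rfl ?_ (hP _ hz'' hw')
            show z'.2.2 * (t'.matches' * e3.matches') ≤ z'.2.2 * t'.matches' * e3.matches'
            rw [mul_assoc]
          refine closed_single hD (atoms_left hl0 ho) (atoms_left (hsub' _ h1) hz) rfl ?_ h3
          show z.2.2 * s'.matches' * e3.matches' ≤ z.2.2 * (t'.matches' * e3.matches')
          rw [mul_assoc]
          exact mul_le_mul' le_rfl (mul_le_mul' hst' le_rfl)
        · obtain ⟨z, hz, rfl⟩ := List.mem_map.mp ho1
          have h3 : (s', z, e3) ∈ D := by
            refine ih' _ h2 (P * s.matches') ?_ z hz ?_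
            · intro z' hz' hw'
              have hz'' : (z'.1, t.matches' * z'.2.1, z'.2.2) ∈ occs (t * t') :=
                List.mem_append_right _ (List.mem_map.mpr ⟨z', hz', rfl⟩)
              refine closed_single hD (atoms_right (hsub' _ h2) hz')
                (atoms_right hl0 hz'') rfl le_rfl (hP _ hz'' ?_)
              rw [← mul_assoc]
              have h5 : P * s.matches' * z'.2.1 ≤ P * t.matches' * z'.2.1 :=
                mul_le_mul' (mul_le_mul' le_rfl hst) le_rfl
              exact h5 hw'
            · rw [mul_assoc]
              exact hw
          exact closed_single hD (atoms_left hl0 ho) (atoms_left (hsub' _ h2) hz) rfl le_rfl h3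
      | @star s t r h =>
        intro P hP o ho hw
        have hst : s.matches'∗ ≤ t.matches'∗ := kstar_mono (hsnd' _ h)
        obtain ⟨z, hz, rfl⟩ := List.mem_map.mp (occs_star s ▸ ho)
        have h3 : (s, z, RegularExpression.star t * e3) ∈ D := by
          refine ih' _ h (P * s.matches'∗) ?_ z hz (by rw [mul_assoc]; exact hw)
          intro z' hz' hw'
          have hz'' : (z'.1, t.matches'∗ * z'.2.1, z'.2.2 * t.matches'∗) ∈
              occs (RegularExpression.star t) := List.mem_map.mpr ⟨z', hz', rfl⟩
          refine closed_single hD (atoms_right (hsub' _ h) hz')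
            (atoms_right hl0 hz'') rfl ?_ (hP _ hz'' ?_)
          · show z'.2.2 * (t.matches'∗ * e3.matches') ≤ z'.2.2 * t.matches'∗ * e3.matches'
            rw [mul_assoc]
          · rw [← mul_assoc]
            have h5 : P * s.matches'∗ * z'.2.1 ≤ P * t.matches'∗ * z'.2.1 :=
              mul_le_mul' (mul_le_mul' le_rfl hst) le_rfl
            exact h5 hw'
        refine closed_single hD (atoms_left hl0 ho) (atoms_left (hsub' _ h) hz) rfl ?_ h3
        show z.2.2 * s.matches'∗ * e3.matches' ≤ z.2.2 * (t.matches'∗ * e3.matches')
        rw [mul_assoc]
        exact mul_le_mul' le_rfl (mul_le_mul' hst le_rfl)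
      | @ind a b x r h =>
        intro P hP o ho hw
        have hx : (RegularExpression.star a * b).matches' ≤ e2.matches' :=
          hsnd _ List.mem_cons_self
        have hall : ∀ j : ℕ, ∀ v ∈ occs e2, w ∈ P * a.matches' ^ j * v.2.1 →
            (e2, v, e3) ∈ D := by
          intro j
          induction j with
          | zero =>
            intro v hv hwv
            rw [pow_zero, mul_one] at hwv
            exact hP v hv hwv
          | succ j ihj =>
            intro v hv hwv
            have hv' : (v.1, a.matches' * v.2.1, v.2.2) ∈ occs (a * e2 + b) :=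
              List.mem_append_left _ (List.mem_append_right _
                (List.mem_map.mpr ⟨v, hv, rfl⟩))
            have h1 := ih' _ h (P * a.matches' ^ j) ihj _ hv' (by
              rw [pow_succ, ← mul_assoc] at hwv
              rw [← mul_assoc]
              exact hwv)
            exact closed_single hD (atoms_right hl0 hv) (atoms_left (hsub' _ h) hv') rfl le_rfl h1
        have hstar : ∀ Q : Language α, w ∈ P * (a.matches'∗ * Q) →
            ∃ j : ℕ, w ∈ P * a.matches' ^ j * Q := by
          rintro Q ⟨p, hp, z, ⟨y, hy, u, hu, rfl⟩, rfl⟩
          rw [Language.kstar_eq_iSup_pow] at hy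
          obtain ⟨j, hj⟩ := Language.mem_iSup.mp hy
          exact ⟨j, p ++ y, ⟨p, hp, y, hj, rfl⟩, u, hu, by simp⟩
        rcases List.mem_append.mp (occs_mul (RegularExpression.star a) b ▸ ho) with ho1 | ho1
        · obtain ⟨z, hz, rfl⟩ := List.mem_map.mp ho1
          obtain ⟨z', hz', rfl⟩ := List.mem_map.mp (occs_star a ▸ hz)
          obtain ⟨j, hj⟩ := hstar _ hw
          have hv' : (z'.1, z'.2.1, z'.2.2 * e2.matches') ∈ occs (a * e2 + b) :=
            List.mem_append_left _ (List.mem_append_left _ (List.mem_map.mpr ⟨z', hz', rfl⟩))
          have h1 := ih' _ h (P * a.matches' ^ j) (hall j) _ hv' hj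
          refine closed_single hD (atoms_left hl0 ho) (atoms_left (hsub' _ h) hv') rfl ?_ h1
          show z'.2.2 * a.matches'∗ * b.matches' * e3.matches' ≤
            z'.2.2 * e2.matches' * e3.matches'
          rw [mul_assoc z'.2.2]
          exact mul_le_mul' (mul_le_mul' le_rfl hx) le_rfl
        · obtain ⟨z', hz', rfl⟩ := List.mem_map.mp ho1
          obtain ⟨j, hj⟩ := hstar _ hw
          have hv' : z' ∈ occs (a * e2 + b) := List.mem_append_right _ hz'
          have h1 := ih' _ h (P * a.matches' ^ j) (hall j) _ hv' hj
          exact closed_single hD (atoms_left hl0 ho) (atoms_left (hsub' _ h) hv') rfl le_rfl h1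
      | @sal a b x r ha h =>
        have hx : e1.matches' ≤ (RegularExpression.star a * b).matches' :=
          hsnd _ List.mem_cons_self
        -- occurrences of `a x + b` in which no letter of `x` is involved
        have base : ∀ P : Language α,
            (∀ o ∈ occs (RegularExpression.star a * b), w ∈ P * o.2.1 →
              (RegularExpression.star a * b, o, e3) ∈ D) →
            ∀ o ∈ occs (a * e1 + b), w ∈ P * o.2.1 →
              (a * e1 + b, o, e3) ∈ D ∨ ∃ z ∈ occs e1, o = (z.1, a.matches' * z.2.1, z.2.2) := by
          intro P hP o ho hwo
          obtain ⟨p, hp, y, hy, hpy⟩ := hwo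
          rcases List.mem_append.mp ho with ho | ho
          · rcases List.mem_append.mp ho with ho | ho
            · obtain ⟨z, hz, rfl⟩ := List.mem_map.mp ho
              left
              have hv' : (z.1, a.matches'∗ * z.2.1, z.2.2 * a.matches'∗ * b.matches') ∈
                  occs (RegularExpression.star a * b) :=
                List.mem_append_left _ (List.mem_map.mpr ⟨(z.1, a.matches'∗ * z.2.1,
                  z.2.2 * a.matches'∗), List.mem_map.mpr ⟨z, hz, rfl⟩, rfl⟩)
              refine closed_single hD (atoms_right (hsub' _ h) (List.mem_append_left _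
                (List.mem_append_left _ (List.mem_map.mpr ⟨z, hz, rfl⟩))))
                (atoms_right hl0 hv') rfl ?_ (hP _ hv' ?_)
              · show z.2.2 * e1.matches' * e3.matches' ≤
                  z.2.2 * a.matches'∗ * b.matches' * e3.matches'
                rw [mul_assoc z.2.2 a.matches'∗]
                exact mul_le_mul' (mul_le_mul' le_rfl hx) le_rfl
              · exact ⟨p, hp, y, ⟨[], Language.nil_mem_kstar _, y, hy, rfl⟩, hpy⟩
            · obtain ⟨z, hz, rfl⟩ := List.mem_map.mp ho
              exact Or.inr ⟨z, hz, rfl⟩
          · left
            have hv' : (o.1, a.matches'∗ * o.2.1, o.2.2) ∈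
                occs (RegularExpression.star a * b) :=
              List.mem_append_right _ (List.mem_map.mpr ⟨o, ho, rfl⟩)
            refine closed_single hD (atoms_right (hsub' _ h) (List.mem_append_right _ ho))
              (atoms_right hl0 hv') rfl le_rfl (hP _ hv' ?_)
            exact ⟨p, hp, y, ⟨[], Language.nil_mem_kstar _, y, hy, rfl⟩, hpy⟩
        have key : ∀ n : ℕ, ∀ P : Language α,
            (∀ o ∈ occs (RegularExpression.star a * b), w ∈ P * o.2.1 →
              (RegularExpression.star a * b, o, e3) ∈ D) →
            ∀ v ∈ occs e1, ∀ p ∈ P, ∀ u ∈ v.2.1, p ++ u = w → u.length ≤ n →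
              (e1, v, e3) ∈ D := by
          intro n
          induction n with
          | zero =>
            intro P hP v hv p hp u hu hpu hn
            refine ih' _ h {p} ?_ v hv ⟨p, rfl, u, hu, hpu⟩
            intro o ho hwo
            obtain ⟨p', hp', y, hy, hpy⟩ := hwo
            have hp'' : p' = p := hp'
            subst hp''
            have hyu : y = u := by
              have : p' ++ y = p' ++ u := by rw [hpu]; exact hpy
              exact List.append_cancel_left this
            subst hyu
            rcases base P hP o ho ⟨p', hp, y, hy, hpy⟩ with h1 | ⟨z, hz, rfl⟩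
            · exact h1
            · exfalso
              obtain ⟨y1, hy1, y2, hy2, rfl⟩ := hy
              have : y1 = [] := by
                have h5 : (y1 ++ y2).length ≤ 0 := hn
                rw [List.length_append] at h5
                exact List.length_eq_zero_iff.mp (by omega)
              subst this
              exact ha hy1
          | succ n ihn =>
            intro P hP v hv p hp u hu hpu hn
            refine ih' _ h {p} ?_ v hv ⟨p, rfl, u, hu, hpu⟩
            intro o ho hwo
            obtain ⟨p', hp', y, hy, hpy⟩ := hwo
            have hp'' : p' = p := hp'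
            subst hp''
            have hyu : y = u := by
              have : p' ++ y = p' ++ u := by rw [hpu]; exact hpy
              exact List.append_cancel_left this
            subst hyu
            rcases base P hP o ho ⟨p', hp, y, hy, hpy⟩ with h1 | ⟨z, hz, rfl⟩
            · exact h1
            · obtain ⟨y1, hy1, y2, hy2, rfl⟩ := hy
              have hy1' : y1 ≠ [] := by
                rintro rfl
                exact ha hy1
              have hpos : 0 < y1.length := List.length_pos_iff.mpr hy1'
              have hlen : (y1 ++ y2).length ≤ n + 1 := hn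
              rw [List.length_append] at hlen
              have h6 : (e1, z, e3) ∈ D := by
                refine ihn (P * a.matches') ?_ z hz (p' ++ y1) ⟨p', hp, y1, hy1, rfl⟩ y2 hy2 ?_
                  (by omega)
                · intro o' ho' hw'
                  refine hP o' ho' ?_
                  have hsh : a.matches' * o'.2.1 ≤ o'.2.1 := by
                    rcases List.mem_append.mp ho' with ho' | ho'
                    · obtain ⟨z1, hz1, rfl⟩ := List.mem_map.mp ho'
                      obtain ⟨z2, hz2, rfl⟩ := List.mem_map.mp hz1
                      show a.matches' * (a.matches'∗ * z2.2.1) ≤ a.matches'∗ * z2.2.1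
                      rw [← mul_assoc]
                      exact mul_le_mul' mul_kstar_le_kstar le_rfl
                    · obtain ⟨z1, hz1, rfl⟩ := List.mem_map.mp ho'
                      show a.matches' * (a.matches'∗ * z1.2.1) ≤ a.matches'∗ * z1.2.1
                      rw [← mul_assoc]
                      exact mul_le_mul' mul_kstar_le_kstar le_rfl
                  have h7 : P * a.matches' * o'.2.1 ≤ P * o'.2.1 := by
                    rw [mul_assoc]
                    exact mul_le_mul' le_rfl hsh
                  exact h7 hw'
                · rw [List.append_assoc]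
                  exact hpy
              have hv' : (z.1, a.matches' * z.2.1, z.2.2) ∈ occs (a * e1 + b) :=
                List.mem_append_left _ (List.mem_append_right _
                  (List.mem_map.mpr ⟨z, hz, rfl⟩))
              exact closed_single hD (atoms_right (hsub' _ h) hv')
                (atoms_left hl0 hz) rfl le_rfl h6
        intro P hP v hv hwv
        obtain ⟨p, hp, u, hu, hpu⟩ := hwv
        exact key u.length P hP v hv p hp u hu hpu le_rfl
    · exact ih' l hl

end Pool.Agent.H543R2.KA
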