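import Pool.Agent.H543R2.KA.Defs

/-!
# Letter occurrences of a regular expression and the words before and after them
-/

namespace Pool.Agent.H543R2.KA

open RegularExpression Language
open scoped Computability

/-- A letter occurrence: the letter, the language of words that can precede it and the language
of words that can follow it. -/
abbrev Oc (α : Type) := α × Language α × Language α

/-- The letter occurrences of a regular expression. -/
def occs {α : Type} : RegularExpression α → List (Oc α)
  | zero => []
  | epsilon => []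
  | char a => [(a, 1, 1)]
  | plus p q => occs p ++ occs q
  | comp p q => (occs p).map (fun o => (o.1, o.2.1, o.2.2 * q.matches')) ++
      (occs q).map (fun o => (o.1, p.matches' * o.2.1, o.2.2))
  | RegularExpression.star p =>
      (occs p).map (fun o => (o.1, p.matches'∗ * o.2.1, o.2.2 * p.matches'∗))

variable {α : Type}

theorem occs_add (p q : RegularExpression α) : occs (p + q) = occs p ++ occs q := rfl

theorem occs_mul (p q : RegularExpression α) : occs (p * q) =
    (occs p).map (fun o => (o.1, o.2.1, o.2.2 * q.matches')) ++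
      (occs q).map (fun o => (o.1, p.matches' * o.2.1, o.2.2)) := rfl

theorem occs_star (p : RegularExpression α) : occs (RegularExpression.star p) =
    (occs p).map (fun o => (o.1, p.matches'∗ * o.2.1, o.2.2 * p.matches'∗)) := rfl

theorem matches_add (p q : RegularExpression α) :
    (p + q).matches' = p.matches' + q.matches' := rfl

theorem matches_mul (p q : RegularExpression α) :
    (p * q).matches' = p.matches' * q.matches' := rfl

theorem matches_star (p : RegularExpression α) :
    (RegularExpression.star p).matches' = p.matches'∗ := rfl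

theorem occs_length (E : RegularExpression α) : (occs E).length = width E := by
  induction E with
  | zero => rfl
  | epsilon => rfl
  | char a => rfl
  | plus p q ihp ihq =>
    show (occs p ++ occs q).length = width p + width q
    rw [List.length_append, ihp, ihq]
  | comp p q ihp ihq =>
    show (_ ++ _ : List (Oc α)).length = width p + width q
    rw [List.length_append, List.length_map, List.length_map, ihp, ihq]
  | star p ih =>
    show (List.map _ _).length = width p
    rw [List.length_map, ih]

/-- soundness of occurrences -/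
theorem occs_sound (E : RegularExpression α) : ∀ o ∈ occs E, ∀ u ∈ o.2.1, ∀ v ∈ o.2.2,
    u ++ o.1 :: v ∈ E.matches' := by
  induction E with
  | zero => intro o ho; simp [occs] at ho
  | epsilon => intro o ho; simp [occs] at ho
  | char a =>
    intro o ho u hu v hv
    simp only [occs, List.mem_singleton] at ho
    subst ho
    have hu' : u = [] := hu
    have hv' : v = [] := hv
    subst hu' hv'
    exact rfl
  | plus p q ihp ihq =>
    intro o ho u hu v hv
    rcases List.mem_append.mp ho with ho | ho
    · exact Or.inl (ihp o ho u hu v hv)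
    · exact Or.inr (ihq o ho u hu v hv)
  | comp p q ihp ihq =>
    intro o ho u hu v hv
    rcases List.mem_append.mp ho with ho | ho
    · rw [List.mem_map] at ho
      obtain ⟨o', ho', rfl⟩ := ho
      obtain ⟨v1, hv1, v2, hv2, rfl⟩ := hv
      refine ⟨u ++ o'.1 :: v1, ihp o' ho' u hu v1 hv1, v2, hv2, ?_⟩
      simp
    · rw [List.mem_map] at ho
      obtain ⟨o', ho', rfl⟩ := ho
      obtain ⟨u1, hu1, u2, hu2, rfl⟩ := hu
      refine ⟨u1, hu1, u2 ++ o'.1 :: v, ihq o' ho' u2 hu2 v hv, ?_⟩
      simp
  | star p ih =>
    intro o ho u hu v hv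
    change o ∈ (occs p).map _ at ho
    rw [List.mem_map] at ho
    obtain ⟨o', ho', rfl⟩ := ho
    obtain ⟨u1, hu1, u2, hu2, rfl⟩ := hu
    obtain ⟨v1, hv1, v2, hv2, rfl⟩ := hv
    have h1 : u2 ++ o'.1 :: v1 ∈ p.matches' := ih o' ho' u2 hu2 v1 hv1
    have h2 : (u2 ++ o'.1 :: v1) ++ v2 ∈ p.matches'∗ := by
      have : p.matches' * p.matches'∗ ≤ p.matches'∗ := mul_kstar_le_kstar
      exact this ⟨_, h1, _, hv2, rfl⟩
    have h3 : u1 ++ ((u2 ++ o'.1 :: v1) ++ v2) ∈ p.matches'∗ := by
      have : p.matches'∗ * p.matches'∗ ≤ p.matches'∗ := by rw [kstar_mul_kstar]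
      exact this ⟨_, hu1, _, h2, rfl⟩
    simpa using h3

theorem append_cons_eq {u v : List α} {a : α} {x y : List α} (h : x ++ y = u ++ a :: v) :
    (∃ v1, x = u ++ a :: v1 ∧ v = v1 ++ y) ∨ ∃ u2, u = x ++ u2 ∧ y = u2 ++ a :: v := by
  rw [List.append_eq_append_iff] at h
  rcases h with ⟨z, hz, hy⟩ | ⟨z, hz, hy⟩
  · right; exact ⟨z, hz, hy⟩
  · cases z with
    | nil =>
      right
      refine ⟨[], by simpa using hz.symm, by simpa using hy.symm⟩
    | cons b z =>
      left
      simp only [List.cons_append, List.cons.injEq] at hy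
      obtain ⟨rfl, rfl⟩ := hy
      exact ⟨z, hz, rfl⟩

/-- completeness of occurrences -/
theorem occs_complete (E : RegularExpression α) : ∀ (a : α) (u v : List α),
    u ++ a :: v ∈ E.matches' → ∃ o ∈ occs E, o.1 = a ∧ u ∈ o.2.1 ∧ v ∈ o.2.2 := by
  induction E with
  | zero => intro a u v h; exact h.elim
  | epsilon =>
    intro a u v h
    have : u ++ a :: v = [] := h
    simp at this
  | char b =>
    intro a u v h
    have h' : u ++ a :: v = [b] := h
    have hu : u = [] := by
      cases u with
      | nil => rfl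
      | cons c u => simp at h'
    subst hu
    simp only [List.nil_append, List.cons.injEq] at h'
    obtain ⟨rfl, rfl⟩ := h'
    exact ⟨(a, 1, 1), by simp [occs], rfl, rfl, rfl⟩
  | plus p q ihp ihq =>
    intro a u v h
    rcases h with h | h
    · obtain ⟨o, ho, h1⟩ := ihp a u v h
      exact ⟨o, List.mem_append_left _ ho, h1⟩
    · obtain ⟨o, ho, h1⟩ := ihq a u v h
      exact ⟨o, List.mem_append_right _ ho, h1⟩
  | comp p q ihp ihq =>
    intro a u v h
    obtain ⟨x, hx, y, hy, hxy⟩ := h
    rcases append_cons_eq hxy with ⟨v1, rfl, rfl⟩ | ⟨u2, rfl, rfl⟩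
    · obtain ⟨o, ho, h1, h2, h3⟩ := ihp a u v1 hx
      refine ⟨(o.1, o.2.1, o.2.2 * q.matches'), List.mem_append_left _
        (List.mem_map.mpr ⟨o, ho, rfl⟩), h1, h2, ⟨v1, h3, y, hy, rfl⟩⟩
    · obtain ⟨o, ho, h1, h2, h3⟩ := ihq a u2 v hy
      refine ⟨(o.1, p.matches' * o.2.1, o.2.2), List.mem_append_right _
        (List.mem_map.mpr ⟨o, ho, rfl⟩), h1, ⟨x, hx, u2, h2, rfl⟩, h3⟩
  | star p ih =>
    intro a u v h
    change u ++ a :: v ∈ p.matches'∗ at h
    rw [Language.mem_kstar] at h
    obtain ⟨L, hL, hmem⟩ := h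

    induction L generalizing u with
    | nil => simp at hL
    | cons x L ihL =>
      rw [List.flatten_cons] at hL
      rcases append_cons_eq hL.symm with ⟨v1, hx, rfl⟩ | ⟨u2, rfl, hy⟩
      · subst hx
        obtain ⟨o, ho, h1, h2, h3⟩ := ih a u v1 (hmem _ List.mem_cons_self)
        refine ⟨(o.1, p.matches'∗ * o.2.1, o.2.2 * p.matches'∗),
          List.mem_map.mpr ⟨o, ho, rfl⟩, h1, ?_, ?_⟩
        · exact ⟨[], Language.nil_mem_kstar _, u, h2, rfl⟩
        · have h4 : L.flatten ∈ p.matches'∗ := by
            rw [Language.mem_kstar]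
            exact ⟨L, rfl, fun y hy => hmem y (List.mem_cons_of_mem _ hy)⟩
          exact ⟨v1, h3, L.flatten, h4, rfl⟩
      · obtain ⟨o, ho, h1, h2, h3⟩ := ihL u2 hy.symm
          (fun y hy => hmem y (List.mem_cons_of_mem _ hy))
        change o ∈ (occs p).map _ at ho
        rw [List.mem_map] at ho
        obtain ⟨o', ho', rfl⟩ := ho
        refine ⟨_, List.mem_map.mpr ⟨o', ho', rfl⟩, h1, ?_, h3⟩
        have h4 : x ++ u2 ∈ p.matches' * (p.matches'∗ * o'.2.1) :=
          ⟨x, hmem _ List.mem_cons_self, u2, h2, rfl⟩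
        have h5 : p.matches' * (p.matches'∗ * o'.2.1) ≤ p.matches'∗ * o'.2.1 := by
          rw [← mul_assoc]
          exact mul_le_mul_left mul_kstar_le_kstar _
        exact h5 h4

end Pool.Agent.H543R2.KA
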