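import Pool.Agent.H543R2.KA.Cov

/-!
# The Horn clauses attached to a proof
-/

namespace Pool.Agent.H543R2.KA

open RegularExpression Language
open scoped Computability

variable {α : Type}

/-- An atom: a regular expression, one of its letter occurrences, and a label. -/
abbrev Atom (α : Type) := RegularExpression α × Oc α × RegularExpression α

/-- The words that can follow the letter of an atom in its right context. -/
def Atom.post (h : Atom α) : Language α := h.2.1.2.2 * h.2.2.matches'

/-- A Horn clause `T → h` is sound if every word after the head letter is possible after one of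
the body occurrences (with the same letter). -/
def Snd (h : Atom α) (T : Finset (Atom α)) : Prop :=
  ∀ v ∈ Atom.post h, ∃ h' ∈ T, h'.2.1.1 = h.2.1.1 ∧ v ∈ Atom.post h'

open Classical in
/-- the atoms of a proof -/
noncomputable def atoms (π : List (Line α)) : Finset (Atom α) :=
  (π.flatMap (fun l => (occs l.1).map (fun o => (l.1, o, l.2.2)) ++
    (occs l.2.1).map (fun o => (l.2.1, o, l.2.2)))).toFinset

theorem atoms_left {π : List (Line α)}
    {s t r : RegularExpression α} (h : (s, t, r) ∈ π) {o : Oc α} (ho : o ∈ occs s) :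
    (s, o, r) ∈ atoms π := by
  classical
  unfold atoms
  rw [List.mem_toFinset, List.mem_flatMap]
  exact ⟨(s, t, r), h, List.mem_append_left _ (List.mem_map.mpr ⟨o, ho, rfl⟩)⟩

theorem atoms_right {π : List (Line α)}
    {s t r : RegularExpression α} (h : (s, t, r) ∈ π) {o : Oc α} (ho : o ∈ occs t) :
    (t, o, r) ∈ atoms π := by
  classical
  unfold atoms
  rw [List.mem_toFinset, List.mem_flatMap]
  exact ⟨(s, t, r), h, List.mem_append_right _ (List.mem_map.mpr ⟨o, ho, rfl⟩)⟩

theorem atoms_card (π : List (Line α)) :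
    (atoms π).card ≤ size π := by
  classical
  unfold atoms size
  refine (List.toFinset_card_le _).trans ?_
  rw [List.length_flatMap]
  apply le_of_eq
  congr 1
  apply List.map_congr_left
  intro l _
  simp [occs_length]

/-- the covering set of a rectangle -/
def IsV (c : ℕ) (t : RegularExpression α) (o : Oc α) (V : List (Oc α)) : Prop :=
  V.length ≤ c ∧ (∀ o' ∈ V, o' ∈ occs t) ∧
    ∀ u ∈ o.2.1, ∀ v ∈ o.2.2, ∃ o' ∈ V, o'.1 = o.1 ∧ u ∈ o'.2.1 ∧ v ∈ o'.2.2

open Classical in
/-- a chosen covering set -/
noncomputable def vset (c : ℕ) (t r : RegularExpression α) (o : Oc α) : Finset (Atom α) :=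
  if h : ∃ V, IsV c t o V then (h.choose.map (fun o' => (t, o', r))).toFinset else ∅

theorem vset_card (c : ℕ) (t r : RegularExpression α) (o : Oc α) : (vset c t r o).card ≤ c := by
  classical
  unfold vset
  split_ifs with h
  · refine (List.toFinset_card_le _).trans ?_
    rw [List.length_map]
    exact h.choose_spec.1
  · simp

theorem vset_sub {c : ℕ} {t r : RegularExpression α} {o : Oc α} {h : Atom α}
    (hh : h ∈ vset c t r o) : ∃ o' ∈ occs t, h = (t, o', r) := by
  classical
  unfold vset at hh
  split_ifs at hh with hV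
  · rw [List.mem_toFinset, List.mem_map] at hh
    obtain ⟨o', ho', rfl⟩ := hh
    exact ⟨o', hV.choose_spec.2.1 o' ho', rfl⟩
  · simp at hh

theorem vset_cov {c : ℕ} {s t : RegularExpression α} (r : RegularExpression α)
    (hst : Cov c s t) {o : Oc α}
    (ho : o ∈ occs s) {u v : List α} (hu : u ∈ o.2.1) (hv : v ∈ o.2.2) :
    ∃ o', (t, o', r) ∈ vset c t r o ∧ o'.1 = o.1 ∧ u ∈ o'.2.1 ∧ v ∈ o'.2.2 := by
  classical
  have hV : ∃ V, IsV c t o V := hst o ho
  obtain ⟨o', ho', h1, h2, h3⟩ := hV.choose_spec.2.2 u hu v hv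
  refine ⟨o', ?_, h1, h2, h3⟩
  unfold vset
  rw [dif_pos hV, List.mem_toFinset, List.mem_map]
  exact ⟨o', ho', rfl⟩

open Classical in
/-- the bodies of the Horn clauses attached to a proof -/
noncomputable def bodies (c : ℕ) (π : List (Line α)) :
    Finset (Finset (Atom α)) :=
  (atoms π).image (fun h => {h}) ∪
    π.toFinset.biUnion (fun l => (occs l.1).toFinset.biUnion
      (fun o => (vset c l.2.1 l.2.2 o).powerset))

theorem bodies_single {c : ℕ} {π : List (Line α)}
    {h : Atom α} (hh : h ∈ atoms π) : {h} ∈ bodies c π := by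
  classical
  unfold bodies
  exact Finset.mem_union_left _ (Finset.mem_image_of_mem _ hh)

theorem bodies_vset {c : ℕ} {π : List (Line α)}
    {s t r : RegularExpression α} (h : (s, t, r) ∈ π) {o : Oc α} (ho : o ∈ occs s)
    {T : Finset (Atom α)} (hT : T ⊆ vset c t r o) : T ∈ bodies c π := by
  classical
  unfold bodies
  refine Finset.mem_union_right _ ?_
  rw [Finset.mem_biUnion]
  refine ⟨(s, t, r), List.mem_toFinset.mpr h, ?_⟩
  rw [Finset.mem_biUnion]
  exact ⟨o, List.mem_toFinset.mpr ho, Finset.mem_powerset.mpr hT⟩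

theorem bodies_card_le {c : ℕ} (hc : 1 ≤ c)
    {π : List (Line α)} {T : Finset (Atom α)}
    (hT : T ∈ bodies c π) : T.card ≤ c := by
  classical
  unfold bodies at hT
  rcases Finset.mem_union.mp hT with hT | hT
  · rw [Finset.mem_image] at hT
    obtain ⟨h, _, rfl⟩ := hT
    simpa using hc
  · rw [Finset.mem_biUnion] at hT
    obtain ⟨l, _, hT⟩ := hT
    rw [Finset.mem_biUnion] at hT
    obtain ⟨o, _, hT⟩ := hT
    exact (Finset.card_le_card (Finset.mem_powerset.mp hT)).trans (vset_card _ _ _ _)

theorem bodies_sub {c : ℕ} {π : List (Line α)}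
    {T : Finset (Atom α)} (hT : T ∈ bodies c π) : T ⊆ atoms π := by
  classical
  unfold bodies at hT
  rcases Finset.mem_union.mp hT with hT | hT
  · rw [Finset.mem_image] at hT
    obtain ⟨h, hh, rfl⟩ := hT
    simpa using hh
  · rw [Finset.mem_biUnion] at hT
    obtain ⟨l, hl, hT⟩ := hT
    rw [Finset.mem_biUnion] at hT
    obtain ⟨o, _, hT⟩ := hT
    intro h hh
    obtain ⟨o', h2, rfl⟩ := vset_sub (Finset.mem_powerset.mp hT hh)
    have hl' : (l.1, l.2.1, l.2.2) ∈ π := List.mem_toFinset.mp hl
    exact atoms_right hl' h2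

theorem sum_toFinset_le {β : Type} [DecidableEq β] (l : List β) (f : β → ℕ) :
    ∑ x ∈ l.toFinset, f x ≤ (l.map f).sum := by
  induction l with
  | nil => simp
  | cons a l ih =>
    rw [List.toFinset_cons, List.map_cons, List.sum_cons]
    by_cases h : a ∈ l.toFinset
    · rw [Finset.insert_eq_of_mem h]
      omega
    · rw [Finset.sum_insert h]
      omega

theorem bodies_card (c : ℕ) (π : List (Line α)) :
    (bodies c π).card ≤ size π * (2 ^ c + 1) := by
  classical
  unfold bodies
  refine (Finset.card_union_le _ _).trans ?_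
  have h1 : ((atoms π).image (fun h => ({h} : Finset (Atom α)))).card ≤ size π :=
    Finset.card_image_le.trans (atoms_card π)
  have h2 : (π.toFinset.biUnion (fun l => (occs l.1).toFinset.biUnion
      (fun o => (vset c l.2.1 l.2.2 o).powerset))).card ≤ size π * 2 ^ c := by
    refine Finset.card_biUnion_le.trans ?_
    calc ∑ l ∈ π.toFinset, ((occs l.1).toFinset.biUnion
          (fun o => (vset c l.2.1 l.2.2 o).powerset)).card
        ≤ ∑ l ∈ π.toFinset, width l.1 * 2 ^ c := by
          apply Finset.sum_le_sum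
          intro l _
          refine Finset.card_biUnion_le.trans ?_
          calc ∑ o ∈ (occs l.1).toFinset, ((vset c l.2.1 l.2.2 o).powerset).card
              ≤ ∑ _o ∈ (occs l.1).toFinset, 2 ^ c := by
                apply Finset.sum_le_sum
                intro o _
                rw [Finset.card_powerset]
                exact Nat.pow_le_pow_right (by norm_num) (vset_card _ _ _ _)
            _ = (occs l.1).toFinset.card * 2 ^ c := by simp
            _ ≤ width l.1 * 2 ^ c := by
                apply Nat.mul_le_mul_right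
                rw [← occs_length]
                exact List.toFinset_card_le _
      _ ≤ (π.map (fun l => width l.1 * 2 ^ c)).sum := sum_toFinset_le _ _
      _ ≤ size π * 2 ^ c := by
          unfold size
          clear h1
          induction π with
          | nil => simp
          | cons l π ih =>
            simp only [List.map_cons, List.sum_cons]
            rw [add_mul, add_mul]
            exact Nat.add_le_add (Nat.le_add_right _ _) ih
  calc _ ≤ size π + size π * 2 ^ c := Nat.add_le_add h1 h2
    _ = _ := by ring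

/-- closedness under the Horn clauses of a proof -/
def Closed (c : ℕ) (π : List (Line α))
    (D : Set (Atom α)) : Prop :=
  ∀ h ∈ atoms π, ∀ T ∈ bodies c π, Snd h T → (∀ h' ∈ T, h' ∈ D) → h ∈ D

theorem closed_single {c : ℕ} {π : List (Line α)}
    {D : Set (Atom α)} (hD : Closed c π D) {h h' : Atom α} (hh : h ∈ atoms π)
    (hh' : h' ∈ atoms π) (h1 : h'.2.1.1 = h.2.1.1) (h2 : Atom.post h ≤ Atom.post h')
    (h3 : h' ∈ D) : h ∈ D := by
  classical
  apply hD h hh {h'} (bodies_single hh')
  · intro v hv
    exact ⟨h', Finset.mem_singleton_self _, h1, h2 hv⟩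
  · intro z hz
    rw [Finset.mem_singleton] at hz
    subst hz
    exact h3

/-- a line respects the set `D` of atoms, in all left contexts -/
def LineOK (D : Set (Atom α)) (w : List α) (s t r : RegularExpression α) : Prop :=
  ∀ P : Language α, (∀ o ∈ occs t, w ∈ P * o.2.1 → (t, o, r) ∈ D) →
    ∀ o ∈ occs s, w ∈ P * o.2.1 → (s, o, r) ∈ D

theorem inst_ok {c : ℕ} (hc : 1 ≤ c) {π : List (Line α)}
    {D : Set (Atom α)} (hD : Closed c π D) (w : List α) {s t r : RegularExpression α}
    (hst : (s, t, r) ∈ π) (h : Inst c s t) : LineOK D w s t r := by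
  classical
  intro P hP o ho hw
  obtain ⟨p, hp, u, hu, rfl⟩ := hw
  apply hD (s, o, r) (atoms_left hst ho) ((vset c t r o).filter (fun h => u ∈ h.2.1.2.1))
    (bodies_vset hst ho (Finset.filter_subset _ _))
  · rintro v ⟨v1, hv1, v2, hv2, rfl⟩
    obtain ⟨o', h1, h2, h3, h4⟩ := vset_cov r (inst_cov hc h) ho hu hv1
    exact ⟨(t, o', r), Finset.mem_filter.mpr ⟨h1, h3⟩, h2, ⟨v1, h4, v2, hv2, rfl⟩⟩
  · intro h' hh'
    rw [Finset.mem_filter] at hh'
    obtain ⟨o', h1, rfl⟩ := vset_sub hh'.1
    exact hP o' h1 ⟨p, hp, u, hh'.2, rfl⟩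

end Pool.Agent.H543R2.KA
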